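import Pool.Agent.Helper42.IR.F.GlueD

/-!
# Project PL: matrix representations, Schur's lemma, Whittaker vectors

The first section is copied from Helper42/IR/F/GlueD.lean (private lemmas there).
-/

open Matrix

namespace Pool.Agent.Helper57.PL.Rep

open Pool.Agent.Helper42.INC
open scoped Kronecker

section charIso

variable {G : Type} [Group G] [Finite G]

theorem gl_compl {V : Type} [AddCommGroup V] [Module ℂ V] (ρ : Representation ℂ G V)
    (W : Subrepresentation ρ) :
    ∃ W' : Subrepresentation ρ, IsCompl W.toSubmodule W'.toSubmodule := by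
  have : ComplementedLattice (Subrepresentation ρ) :=
    (inferInstance : Representation.IsSemisimpleRepresentation ρ)
  obtain ⟨W', hW'⟩ := exists_isCompl W
  refine ⟨W', ?_, ?_⟩
  · rw [disjoint_iff]
    exact congrArg Subrepresentation.toSubmodule (disjoint_iff.1 hW'.1)
  · rw [codisjoint_iff]
    exact congrArg Subrepresentation.toSubmodule (codisjoint_iff.1 hW'.2)

omit [Finite G] in
theorem gl_split {V : Type} [AddCommGroup V] [Module ℂ V] [FiniteDimensional ℂ V]
    (ρ : Representation ℂ G V) (W W' : Subrepresentation ρ)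
    (h : IsCompl W.toSubmodule W'.toSubmodule) (g : G) :
    ρ.character g = W.toRepresentation.character g + W'.toRepresentation.character g := by
  set e := Submodule.prodEquivOfIsCompl _ _ h
  have h1 : ρ g = e.conj (LinearMap.prodMap (W.toRepresentation g) (W'.toRepresentation g)) := by
    ext v
    obtain ⟨⟨x, y⟩, rfl⟩ := e.surjective v
    rw [LinearEquiv.conj_apply_apply, LinearEquiv.symm_apply_apply]
    simp only [LinearMap.prodMap_apply]
    rw [Submodule.coe_prodEquivOfIsCompl', Submodule.coe_prodEquivOfIsCompl', map_add]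
    rfl
  show LinearMap.trace ℂ V (ρ g) = _
  rw [h1, LinearMap.trace_conj', LinearMap.trace_prodMap']
  rfl

/-- representations with the same character are isomorphic -/
theorem gl_iso (n : ℕ) : ∀ {V W : Type} [AddCommGroup V] [Module ℂ V]
    [FiniteDimensional ℂ V] [AddCommGroup W] [Module ℂ W] [FiniteDimensional ℂ W]
    (ρ : Representation ℂ G V) (σ : Representation ℂ G W), Module.finrank ℂ V = n →
    ρ.character = σ.character → Nonempty (Representation.Equiv ρ σ) := by
  classical
  induction n using Nat.strong_induction_on with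
  | _ n ih =>
  intro V W _ _ _ _ _ _ ρ σ hn hch
  have hfr : Module.finrank ℂ W = n := by
    have h1 := congrFun hch 1
    rw [Representation.char_one, Representation.char_one] at h1
    have h2 : Module.finrank ℂ V = Module.finrank ℂ W := by exact_mod_cast h1
    omega
  rcases Nat.eq_zero_or_pos n with h0 | h0
  · subst h0
    have hV : Subsingleton V := Module.finrank_zero_iff.1 hn
    have hW : Subsingleton W := Module.finrank_zero_iff.1 hfr
    exact ⟨Representation.Equiv.mk (LinearEquiv.ofFinrankEq V W (by omega)) (fun g => by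
      apply LinearMap.ext
      intro v
      exact Subsingleton.elim _ _)⟩
  · have := Fintype.ofFinite G
    have hid : Representation.IntertwiningMap.id ρ ≠ 0 := by
      intro hz
      have h3 : (LinearMap.id : V →ₗ[ℂ] V) = 0 := congrArg (fun f => f.toLinearMap) hz
      have : Subsingleton V := ⟨fun x y => by
        have hx := LinearMap.congr_fun h3 x
        have hy := LinearMap.congr_fun h3 y
        simp only [LinearMap.id_apply, LinearMap.zero_apply] at hx hy
        rw [hx, hy]⟩
      have : Module.finrank ℂ V = 0 := Module.finrank_zero_iff.2 this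
      omega
    have hrr : 0 < Module.finrank ℂ (Representation.IntertwiningMap ρ ρ) :=
      Module.finrank_pos_iff_exists_ne_zero.2 ⟨_, hid⟩
    have hrs : (Module.finrank ℂ (Representation.IntertwiningMap ρ σ) : ℂ) =
        Module.finrank ℂ (Representation.IntertwiningMap ρ ρ) := by
      rw [← Representation.card_inv_mul_sum_char_mul_char_eq_finrank,
        ← Representation.card_inv_mul_sum_char_mul_char_eq_finrank, hch]
    have hrs' : 0 < Module.finrank ℂ (Representation.IntertwiningMap ρ σ) := by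
      have : Module.finrank ℂ (Representation.IntertwiningMap ρ σ) =
        Module.finrank ℂ (Representation.IntertwiningMap ρ ρ) := by exact_mod_cast hrs
      omega
    obtain ⟨F, hF⟩ := Module.finrank_pos_iff_exists_ne_zero.1 hrs'
    obtain ⟨V', hV'⟩ := gl_compl ρ F.ker
    obtain ⟨J, hJ⟩ := gl_compl σ F.range
    have hmem : ∀ v, F v ∈ F.range.toSubmodule := fun v => ⟨v, rfl⟩
    -- `V' ≅ range`
    let f1 : V'.toSubmodule →ₗ[ℂ] F.range.toSubmodule :=
      (F.toLinearMap.codRestrict F.range.toSubmodule hmem).domRestrict V'.toSubmodule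
    have hf1 : Function.Bijective f1 := by
      constructor
      · rw [← LinearMap.ker_eq_bot, LinearMap.ker_eq_bot']
        intro x hx
        have h1 : F (x : V) = 0 := congrArg Subtype.val hx
        have h2 : (x : V) ∈ F.ker.toSubmodule := h1
        have h3 : (x : V) ∈ F.ker.toSubmodule ⊓ V'.toSubmodule := ⟨h2, x.2⟩
        rw [disjoint_iff.1 hV'.1] at h3
        exact Subtype.ext ((Submodule.mem_bot ℂ).1 h3)
      · rintro ⟨_, ⟨v, rfl⟩⟩
        have h1 : v ∈ F.ker.toSubmodule ⊔ V'.toSubmodule := by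
          rw [codisjoint_iff.1 hV'.2]; trivial
        obtain ⟨x, hx, y, hy, rfl⟩ := Submodule.mem_sup.1 h1
        refine ⟨⟨y, hy⟩, Subtype.ext ?_⟩
        show F.toLinearMap y = F.toLinearMap (x + y)
        have h2 : F.toLinearMap x = 0 := hx
        rw [map_add, h2, zero_add]
    let e1 : V'.toSubmodule ≃ₗ[ℂ] F.range.toSubmodule := LinearEquiv.ofBijective f1 hf1
    have he1 : ∀ g, (e1 : V'.toSubmodule →ₗ[ℂ] F.range.toSubmodule) ∘ₗ V'.toRepresentation g =
        F.range.toRepresentation g ∘ₗ (e1 : V'.toSubmodule →ₗ[ℂ] F.range.toSubmodule) := by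
      intro g
      ext v
      show F (ρ g v) = σ g (F v)
      exact Representation.IntertwiningMap.isIntertwining ρ σ F g v
    have hc1 : V'.toRepresentation.character = F.range.toRepresentation.character :=
      Representation.char_iso (Representation.Equiv.mk e1 he1)
    have hc2 : F.ker.toRepresentation.character = J.toRepresentation.character := by
      funext g
      have h1 := gl_split ρ _ _ hV' g
      have h2 := gl_split σ _ _ hJ g
      rw [hch, h2, hc1] at h1
      linear_combination -h1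
    have hlt : Module.finrank ℂ F.ker.toSubmodule < n := by
      rw [← hn]
      apply Submodule.finrank_lt
      intro htop
      apply hF
      apply Representation.IntertwiningMap.ext
      apply LinearMap.ext
      intro v
      have : v ∈ F.ker.toSubmodule := by rw [htop]; trivial
      exact this
    obtain ⟨e2⟩ := ih _ hlt F.ker.toRepresentation J.toRepresentation rfl hc2
    let e : V ≃ₗ[ℂ] W := (Submodule.prodEquivOfIsCompl _ _ hV').symm ≪≫ₗ
      (LinearEquiv.prodCongr e2.toLinearEquiv e1) ≪≫ₗ Submodule.prodEquivOfIsCompl _ _ hJ.symm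
    refine ⟨Representation.Equiv.mk e (fun g => ?_)⟩
    apply LinearMap.ext
    intro v
    obtain ⟨⟨x, y⟩, rfl⟩ := (Submodule.prodEquivOfIsCompl _ _ hV').surjective v
    have hρ : ρ g ((Submodule.prodEquivOfIsCompl _ _ hV') (x, y)) =
        (Submodule.prodEquivOfIsCompl _ _ hV')
          (F.ker.toRepresentation g x, V'.toRepresentation g y) := by
      rw [Submodule.coe_prodEquivOfIsCompl', Submodule.coe_prodEquivOfIsCompl', map_add]
      rfl
    show e (ρ g _) = σ g (e _)
    rw [hρ]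
    simp only [e, LinearEquiv.trans_apply, LinearEquiv.symm_apply_apply,
      LinearEquiv.prodCongr_apply]
    rw [Submodule.coe_prodEquivOfIsCompl', Submodule.coe_prodEquivOfIsCompl', map_add]
    have h3 : e2.toLinearEquiv (F.ker.toRepresentation g x) =
        J.toRepresentation g (e2.toLinearEquiv x) :=
      Representation.IntertwiningMap.isIntertwining _ _ e2.toIntertwiningMap g x
    have h4 : e1 (V'.toRepresentation g y) = F.range.toRepresentation g (e1 y) :=
      LinearMap.congr_fun (he1 g) y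
    rw [h3, h4]
    rfl

/-- the representation on column vectors given by a matrix representation -/
noncomputable def glRep {H n : Type} [Group H] [Fintype n] [DecidableEq n]
    (D : H →* Matrix n n ℂ) : Representation ℂ H (n → ℂ) :=
  (Matrix.toLinAlgEquiv' (R := ℂ) (n := n)).toMulEquiv.toMonoidHom.comp D

theorem gl_apply {H n : Type} [Group H] [Fintype n] [DecidableEq n]
    (D : H →* Matrix n n ℂ) (h : H) : glRep D h = Matrix.toLin' (D h) := rfl

theorem gl_char {H n : Type} [Group H] [Fintype n] [DecidableEq n]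
    (D : H →* Matrix n n ℂ) : (glRep D).character = fun h => (D h).trace := by
  funext h
  rw [Representation.character, gl_apply, Matrix.trace_toLin'_eq]

/-- matrix representations with the same character are conjugate -/
theorem gl_conj {n m : Type} [Fintype n] [DecidableEq n] [Fintype m] [DecidableEq m]
    (D : G →* Matrix n n ℂ) (D' : G →* Matrix m m ℂ) (h : ∀ g, (D g).trace = (D' g).trace) :
    ∃ (P : Matrix m n ℂ) (Q : Matrix n m ℂ), P * Q = 1 ∧ Q * P = 1 ∧
      (∀ g, P * D g = D' g * P) ∧ ∀ g, Q * D' g = D g * Q := by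
  obtain ⟨e, he1⟩ : ∃ e : (n → ℂ) ≃ₗ[ℂ] (m → ℂ), ∀ g,
      (e : (n → ℂ) →ₗ[ℂ] (m → ℂ)) ∘ₗ Matrix.toLin' (D g) =
      Matrix.toLin' (D' g) ∘ₗ (e : (n → ℂ) →ₗ[ℂ] (m → ℂ)) := by
    obtain ⟨e⟩ := gl_iso _ (glRep D) (glRep D') rfl (by
      rw [gl_char, gl_char]
      funext g
      exact h g)
    refine ⟨e.toLinearEquiv, fun g => ?_⟩
    apply LinearMap.ext
    intro v
    exact Representation.IntertwiningMap.isIntertwining _ _ e.toIntertwiningMap g v
  have hPQ : LinearMap.toMatrix' (e : (n → ℂ) →ₗ[ℂ] (m → ℂ)) *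
      LinearMap.toMatrix' (e.symm : (m → ℂ) →ₗ[ℂ] (n → ℂ)) = 1 := by
    rw [← LinearMap.toMatrix'_comp]
    simp
  have hQP : LinearMap.toMatrix' (e.symm : (m → ℂ) →ₗ[ℂ] (n → ℂ)) *
      LinearMap.toMatrix' (e : (n → ℂ) →ₗ[ℂ] (m → ℂ)) = 1 := by
    rw [← LinearMap.toMatrix'_comp]
    simp
  have hP : ∀ g, LinearMap.toMatrix' (e : (n → ℂ) →ₗ[ℂ] (m → ℂ)) * D g =
      D' g * LinearMap.toMatrix' (e : (n → ℂ) →ₗ[ℂ] (m → ℂ)) := by
    intro g
    have h1 := congrArg LinearMap.toMatrix' (he1 g)
    rw [LinearMap.toMatrix'_comp, LinearMap.toMatrix'_comp, LinearMap.toMatrix'_toLin',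
      LinearMap.toMatrix'_toLin'] at h1
    exact h1
  refine ⟨_, _, hPQ, hQP, hP, fun g => ?_⟩
  set P := LinearMap.toMatrix' (e : (n → ℂ) →ₗ[ℂ] (m → ℂ))
  set Q := LinearMap.toMatrix' (e.symm : (m → ℂ) →ₗ[ℂ] (n → ℂ))
  calc Q * D' g = Q * D' g * (P * Q) := by rw [hPQ, Matrix.mul_one]
    _ = Q * (D' g * P) * Q := by simp only [Matrix.mul_assoc]
    _ = Q * (P * D g) * Q := by rw [hP g]
    _ = (Q * P) * D g * Q := by simp only [Matrix.mul_assoc]
    _ = D g * Q := by rw [hQP, Matrix.one_mul]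

/-- Schur's lemma for matrices -/
theorem gl_comm {n : Type} [Fintype n] [DecidableEq n]
    (D : G →* Matrix n n ℂ) (hD : (fun h => (D h).trace) ∈ Irr G) (A : Matrix n n ℂ)
    (hA : ∀ h, A * D h = D h * A) : ∃ c : ℂ, A = c • (1 : Matrix n n ℂ) := by
  classical
  have := Fintype.ofFinite G
  have hne : (D 1).trace ≠ 0 := by
    obtain ⟨m, hm0, hm⟩ := irr_one hD
    rw [hm]
    exact_mod_cast hm0.ne'
  have h1 : B (glRep D).character (glRep D).character = 1 := by
    rw [gl_char]
    exact B_irr_self hD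
  rw [B_eq, Representation.card_inv_mul_sum_char_mul_char_eq_finrank] at h1
  have h2 : Module.finrank ℂ (Representation.IntertwiningMap (glRep D) (glRep D)) = 1 := by
    exact_mod_cast h1
  have hid : Representation.IntertwiningMap.id (glRep D) ≠ 0 := by
    intro h0
    have h3 : (LinearMap.id : (n → ℂ) →ₗ[ℂ] (n → ℂ)) = 0 :=
      congrArg (fun f => f.toLinearMap) h0
    apply hne
    rw [map_one, Matrix.trace_one]
    have h4 : IsEmpty n := by
      by_contra hcon
      rw [not_isEmpty_iff] at hcon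
      obtain ⟨i⟩ := hcon
      have h5 := congrFun (LinearMap.congr_fun h3 (fun _ => (1 : ℂ))) i
      simp at h5
    simp
  have hcz : ∀ g, Matrix.toLin' A ∘ₗ glRep D g = glRep D g ∘ₗ Matrix.toLin' A := by
    intro g
    rw [gl_apply, ← Matrix.toLin'_mul, ← Matrix.toLin'_mul, hA g]
  obtain ⟨c, hc⟩ := (finrank_eq_one_iff_of_nonzero' _ hid).1 h2
    ⟨Matrix.toLin' A, hcz⟩
  have h6 : c • (LinearMap.id : (n → ℂ) →ₗ[ℂ] (n → ℂ)) = Matrix.toLin' A :=
    congrArg (fun f => f.toLinearMap) hc
  refine ⟨c, ?_⟩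
  apply Matrix.toLin'.injective
  rw [← h6, map_smul, Matrix.toLin'_one]

omit [Finite G] in
/-- matrix form of an irreducible character -/
theorem gl_mat {θ : G → ℂ} (h : θ ∈ Irr G) :
    ∃ (m : ℕ) (X : G →* Matrix (Fin m) (Fin m) ℂ), 0 < m ∧ (fun g => (X g).trace) = θ := by
  obtain ⟨V, _, _, _, ρ, hρ, rfl⟩ := h
  have hnt := ((isIrreducible_iff ρ).1 hρ).1
  let b := Module.finBasis ℂ V
  refine ⟨Module.finrank ℂ V, (LinearMap.toMatrixAlgEquiv b).toMulEquiv.toMonoidHom.comp ρ,
    Module.finrank_pos, ?_⟩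
  funext g
  exact (LinearMap.trace_eq_matrix_trace ℂ b (ρ g)).symm

end charIso


section whittaker

/-- the multiplicity of a linear character, and the space of its vectors -/
theorem exists_vec {U : Type} [Group U] [Finite U] {n : Type} [Fintype n] [DecidableEq n]
    (X : U →* Matrix n n ℂ) (ψ : U →* ℂˣ)
    (h : B (fun u => (X u).trace) (fun u => ((ψ u : ℂˣ) : ℂ)) = 1) :
    ∃ v : n → ℂ, v ≠ 0 ∧ (∀ u, X u *ᵥ v = ((ψ u : ℂˣ) : ℂ) • v) ∧
      ∀ w : n → ℂ, (∀ u, X u *ᵥ w = ((ψ u : ℂˣ) : ℂ) • w) → ∃ c : ℂ, w = c • v := by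
  classical
  have := Fintype.ofFinite U
  set P : Matrix n n ℂ := (Nat.card U : ℂ)⁻¹ • ∑ u, (((ψ u)⁻¹ : ℂˣ) : ℂ) • X u with hP
  let E : Submodule ℂ (n → ℂ) :=
    { carrier := {w | ∀ u, X u *ᵥ w = ((ψ u : ℂˣ) : ℂ) • w}
      zero_mem' := fun u => by rw [Matrix.mulVec_zero, smul_zero]
      add_mem' := fun {a b} ha hb u => by
        rw [Matrix.mulVec_add, ha u, hb u, smul_add]
      smul_mem' := fun c a ha u => by
        rw [Matrix.mulVec_smul, ha u, smul_comm] }
  have hcard : (Nat.card U : ℂ) ≠ 0 := by exact_mod_cast Nat.card_pos.ne'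
  have hXP : ∀ u, X u * P = ((ψ u : ℂˣ) : ℂ) • P := by
    intro u
    rw [hP, mul_smul_comm, smul_comm ((ψ u : ℂˣ) : ℂ)]
    congr 1
    rw [Finset.mul_sum, Finset.smul_sum, ← Equiv.sum_comp (Equiv.mulLeft u)
      (fun w => ((ψ u : ℂˣ) : ℂ) • (((ψ w)⁻¹ : ℂˣ) : ℂ) • X w)]
    apply Finset.sum_congr rfl
    intro w _
    rw [Equiv.coe_mulLeft, mul_smul_comm, ← map_mul, smul_smul]
    congr 1
    rw [map_mul, mul_inv, ← Units.val_mul, mul_inv_cancel_left]
  have hPE : LinearMap.IsProj E (Matrix.toLin' P) := by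
    constructor
    · intro w u
      rw [Matrix.toLin'_apply, Matrix.mulVec_mulVec, hXP, Matrix.smul_mulVec]
    · intro w hw
      rw [Matrix.toLin'_apply, hP, Matrix.smul_mulVec, Matrix.sum_mulVec]
      have h1 : ∀ u ∈ Finset.univ, ((((ψ u)⁻¹ : ℂˣ) : ℂ) • X u) *ᵥ w = w := by
        intro u _
        rw [Matrix.smul_mulVec, hw u, smul_smul, ← Units.val_mul, inv_mul_cancel, Units.val_one,
          one_smul]
      rw [Finset.sum_congr rfl h1, Finset.sum_const, Finset.card_univ, ← Nat.card_eq_fintype_card,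
        ← Nat.cast_smul_eq_nsmul ℂ, smul_smul, inv_mul_cancel₀ hcard, one_smul]
  have htr : LinearMap.trace ℂ (n → ℂ) (Matrix.toLin' P) = 1 := by
    rw [Matrix.trace_toLin'_eq, hP, Matrix.trace_smul, Matrix.trace_sum, ← h, B_eq, smul_eq_mul]
    congr 1
    apply Finset.sum_congr rfl
    intro u _
    rw [Matrix.trace_smul, map_inv, smul_eq_mul, mul_comm]
  have hfin : Module.finrank ℂ E = 1 := by
    have h1 := hPE.trace
    rw [htr] at h1
    exact_mod_cast h1.symm
  obtain ⟨⟨v, hvE⟩, hv0, hv⟩ := finrank_eq_one_iff'.1 hfin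
  refine ⟨v, fun h0 => hv0 (Subtype.ext h0), hvE, fun w hw => ?_⟩
  obtain ⟨c, hc⟩ := hv ⟨w, hw⟩
  exact ⟨c, (congrArg Subtype.val hc).symm⟩

/-- The intertwining operators of a group `A` acting on `G`, normalised on a line. -/
theorem exists_W {G A : Type} [Group G] [Finite G] [Group A] (a : A →* MulAut G) {n : Type}
    [Fintype n] [DecidableEq n] (X : G →* Matrix n n ℂ) (hX : (fun g => (X g).trace) ∈ Irr G)
    (hinv : ∀ r g, (X (a r g)).trace = (X g).trace) {U : Type} (ι : U → G) (ψ : U → ℂ)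
    (hU : ∀ r u, ∃ u', ι u' = a r (ι u) ∧ ψ u' = ψ u) (v : n → ℂ) (hv0 : v ≠ 0)
    (hv : ∀ u, X (ι u) *ᵥ v = ψ u • v)
    (huniq : ∀ w : n → ℂ, (∀ u, X (ι u) *ᵥ w = ψ u • w) → ∃ c : ℂ, w = c • v) :
    ∃ W : A →* Matrix n n ℂ, (∀ r g, W r * X g = X (a r g) * W r) ∧ ∀ r, W r *ᵥ v = v := by
  have hex : ∀ r, ∃ P : Matrix n n ℂ, (∀ g, P * X g = X (a r g) * P) ∧ P *ᵥ v = v := by
    intro r
    obtain ⟨P, Q, hPQ, hQP, hP, hQ⟩ := gl_conj X (X.comp (a r).toMonoidHom)
      (fun g => (hinv r g).symm)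
    have hPg : ∀ g, P * X g = X (a r g) * P := hP
    have hw : ∀ u, X (ι u) *ᵥ (P *ᵥ v) = ψ u • (P *ᵥ v) := by
      intro u
      obtain ⟨u', h1, h2⟩ := hU r⁻¹ u
      have h3 : ι u = a r (ι u') := by
        rw [h1, ← MulAut.mul_apply, ← map_mul, mul_inv_cancel, map_one, MulAut.one_apply]
      rw [Matrix.mulVec_mulVec, h3, ← hPg, ← Matrix.mulVec_mulVec, hv, h2, Matrix.mulVec_smul]
    obtain ⟨c, hc⟩ := huniq _ hw
    have hc0 : c ≠ 0 := by
      rintro rfl
      rw [zero_smul] at hc
      apply hv0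
      have h4 : Q *ᵥ (P *ᵥ v) = v := by rw [Matrix.mulVec_mulVec, hQP, Matrix.one_mulVec]
      rw [← h4, hc, Matrix.mulVec_zero]
    refine ⟨c⁻¹ • P, fun g => ?_, ?_⟩
    · rw [smul_mul_assoc, hPg, mul_smul_comm]
    · rw [Matrix.smul_mulVec, hc, smul_smul, inv_mul_cancel₀ hc0, one_smul]
  have hun : ∀ r (P P' : Matrix n n ℂ), (∀ g, P * X g = X (a r g) * P) → P *ᵥ v = v →
      (∀ g, P' * X g = X (a r g) * P') → P' *ᵥ v = v → P = P' := by
    intro r P P' h1 h2 h3 h4
    obtain ⟨S, T, hST, hTS, hS, hT⟩ := gl_conj X (X.comp (a r).toMonoidHom)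
      (fun g => (hinv r g).symm)
    have hTg : ∀ g, T * X (a r g) = X g * T := hT
    have key : ∀ M : Matrix n n ℂ, (∀ g, M * X g = X (a r g) * M) → ∃ c : ℂ, M = c • S := by
      intro M hM
      obtain ⟨c, hc⟩ := gl_comm X hX (T * M) (fun g => by
        rw [Matrix.mul_assoc, hM, ← Matrix.mul_assoc, hTg, Matrix.mul_assoc])
      refine ⟨c, ?_⟩
      have h5 : S * (T * M) = S * (c • 1) := by rw [hc]
      rwa [← Matrix.mul_assoc, hST, Matrix.one_mul, mul_smul_comm, Matrix.mul_one] at h5
    obtain ⟨c, hc⟩ := key P h1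
    obtain ⟨c', hc'⟩ := key P' h3
    rw [hc, Matrix.smul_mulVec] at h2
    rw [hc', Matrix.smul_mulVec] at h4
    have hne : S *ᵥ v ≠ 0 := by
      intro h0
      rw [h0, smul_zero] at h2
      exact hv0 h2.symm
    have h6 : (c - c') • (S *ᵥ v) = 0 := by rw [sub_smul, h2, h4, sub_self]
    have h7 : c = c' := sub_eq_zero.1 ((smul_eq_zero.1 h6).resolve_right hne)
    rw [hc, hc', h7]
  choose W hW1 hW2 using hex
  refine ⟨{ toFun := W, map_one' := ?_, map_mul' := ?_ }, hW1, hW2⟩
  · apply hun 1 _ _ (hW1 1) (hW2 1)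
    · intro g
      rw [map_one, MulAut.one_apply, Matrix.one_mul, Matrix.mul_one]
    · rw [Matrix.one_mulVec]
  · intro r s
    apply hun (r * s) _ _ (hW1 _) (hW2 _)
    · intro g
      rw [Matrix.mul_assoc, hW1, ← Matrix.mul_assoc, hW1, map_mul, MulAut.mul_apply,
        Matrix.mul_assoc]
    · rw [← Matrix.mulVec_mulVec, hW2, hW2]

end whittaker

end Pool.Agent.Helper57.PL.Rep
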