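import Pool.Agent.Helper57.PL.Good
import Pool.Agent.Helper55.PL.CycSyl

/-!
# Project PL: Sylow `p`-subgroups of `PSL₂(k)` for `|k| = p`
-/

open Matrix
open scoped MatrixGroups

namespace Pool.Agent.Helper57.PL

open Pool.Agent.Helper55.PL

variable {F : Type} [Field F] [Finite F] {p : ℕ} [Fact p.Prime] [CharP F p]

theorem cyclic_prime (hp : p ≠ 2) (hF : Nat.card F = p) :
    ∀ P : Sylow p PSL(2, F), IsCyclic P := by
  let π : SL(2, F) →* PSL(2, F) := QuotientGroup.mk' (Subgroup.center SL(2, F))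
  have hπs : Function.Surjective π := QuotientGroup.mk'_surjective _
  have hπ : ∀ s, π s = 1 → s = 1 ∨ s = -1 := fun s hs =>
    center_pm ((QuotientGroup.eq_one_iff s).1 hs)
  obtain ⟨P₀, hP₀⟩ := exists_sylow (p := p) hp hπs hπ
  intro P
  have h1 : Nat.card P ∣ p := by
    have h2 : Nat.card P = Nat.card P₀ := Nat.card_congr (P.equiv P₀).toEquiv
    have h3 : Nat.card P₀ = Nat.card ((US F).map π) := by rw [← hP₀]
    have h4 : Function.Surjective (fun u : F => (⟨π (xu u), Subgroup.mem_map_of_mem π ⟨u, rfl⟩⟩ :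
        (US F).map π)) := by
      rintro ⟨_, ⟨_, ⟨u, rfl⟩, rfl⟩⟩
      exact ⟨u, rfl⟩
    have h5 := Nat.card_le_card_of_surjective _ h4
    rw [hF] at h5
    obtain ⟨n, hn⟩ := IsPGroup.iff_card.1 P.isPGroup'
    rw [h2, h3] at *
    rw [hn] at h5 ⊢
    have h6 : n ≤ 1 := by
      by_contra hc
      have h7 : p ^ 2 ≤ p ^ n := Nat.pow_le_pow_right (Fact.out : p.Prime).pos (by omega)
      have h8 : p ^ 1 < p ^ 2 := Nat.pow_lt_pow_right (Fact.out : p.Prime).one_lt (by norm_num)
      rw [pow_one] at h8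
      omega
    calc p ^ n ∣ p ^ 1 := pow_dvd_pow p h6
      _ = p := pow_one p
  rcases (Nat.dvd_prime Fact.out).1 h1 with h | h
  · have : Subsingleton P := (Nat.card_eq_one_iff_unique.1 h).1
    infer_instance
  · exact isCyclic_of_prime_card h

/-- trichotomy for `PSL₂(k)`, `k` any finite field: cyclic Sylow `p`-subgroups, or `k` has
characteristic `p` and more than 3 elements -/
theorem psl_cases {k : Type} [Field k] [Finite k] {p : ℕ} [Fact p.Prime] (hp : p ≠ 2) :
    (∀ P : Sylow p PSL(2, k), IsCyclic P) ∨ (CharP k p ∧ 3 < Nat.card k) := by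
  by_cases h : (p : k) = 0
  · have hc : CharP k p := (CharP.charP_iff_prime_eq_zero Fact.out).2 h
    by_cases h3 : 3 < Nat.card k
    · exact Or.inr ⟨hc, h3⟩
    · left
      have := Fintype.ofFinite k
      obtain ⟨n, hpp, hn⟩ := FiniteField.card k p
      rw [Nat.card_eq_fintype_card] at h3
      have h4 : p ^ 1 ≤ p ^ (n : ℕ) := Nat.pow_le_pow_right hpp.pos n.pos
      rw [pow_one, ← hn] at h4
      have h5 : 2 < p := lt_of_le_of_ne hpp.two_le (Ne.symm hp)
      apply cyclic_prime hp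
      rw [Nat.card_eq_fintype_card]
      omega
  · exact Or.inl (cyclic_psl p hp h)

end Pool.Agent.Helper57.PL
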