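import Pool.Agent.Helper57.PL.AutA

/-!
# Project PL, module A7, main statement
-/

open Matrix
open scoped MatrixGroups

namespace Pool.Agent.Helper57.PL

open Pool.Agent.Helper55.PL

variable {F : Type} [Field F] {K : Type} [Group K]

theorem cj_mem {g : GL (Fin 2) F} (hg : g ∈ BG F) {s : SL(2, F)} : cj g s ∈ BS F ↔ s ∈ BS F := by
  rw [← toGL_mem_BG, toGL_cj, Subgroup.mul_mem_cancel_right _ (inv_mem hg),
    Subgroup.mul_mem_cancel_left _ hg, toGL_mem_BG]

theorem cj_neg_one (g : GL (Fin 2) F) : cj g (-1) = -1 := by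
  apply Subtype.ext
  change g.val * (-1 : Matrix (Fin 2) (Fin 2) F) * (g⁻¹).val = -1
  rw [mul_neg, mul_one, neg_mul, ← Units.val_mul, mul_inv_cancel, Units.val_one]

/-- the hypotheses are preserved by conjugation with upper triangular matrices -/
theorem Pair.comp {π β : SL(2, F) →* K} (h : Pair π β) {g : GL (Fin 2) F} (hg : g ∈ BG F) :
    Pair π (β.comp (cj g).toMonoidHom) where
  kπ := h.kπ
  kβ s hs := by
    change β (cj g s) = 1 at hs
    rcases h.kβ _ hs with h1 | h1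
    · left
      exact (cj g).injective (by rw [h1, map_one])
    · right
      exact (cj g).injective (by rw [h1, cj_neg_one])
  surj := h.surj
  mem s hs := h.mem _ ((cj_mem hg).2 hs)
  mem' s t ht hst := (cj_mem hg).1 (h.mem' _ t ht hst)

/-- `cj` with an upper unipotent matrix -/
theorem cj_xu (r : F) (s : SL(2, F)) : cj (up 1 1 r) s = xu r * s * (xu r)⁻¹ := by
  apply Matrix.SpecialLinearGroup.toGL_injective
  rw [toGL_cj, map_mul, map_mul, map_inv, toGL_xu]

theorem cj_dd (d : Fˣ) (u : F) : cj (up d 1 0) (xu u) = xu (d * u) := by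
  apply Matrix.SpecialLinearGroup.toGL_injective
  rw [toGL_cj, toGL_xu, toGL_xu, mul_inv_eq_iff_eq_mul, up_mul, up_mul]
  congr 1 <;> simp

theorem cj_mul (g g' : GL (Fin 2) F) (s : SL(2, F)) : cj (g * g') s = cj g (cj g' s) := by
  apply Matrix.SpecialLinearGroup.toGL_injective
  rw [toGL_cj, toGL_cj, toGL_cj]
  group

theorem fS_cj (f : F ≃+* F) (g : GL (Fin 2) F) (s : SL(2, F)) :
    fS f (cj g s) = cj (fG f g) (fS f s) := by
  apply Matrix.SpecialLinearGroup.toGL_injective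
  rw [toGL_cj, toGL_fS, toGL_cj, map_mul, map_mul, map_inv, toGL_fS]

theorem ww_eq : (ww : SL(2, F)) = xu 1 * xl (-1) * xu 1 := by
  apply sl_ext
  · rw [mul00, mul00, mul01]; simp only [xu00, xu01, xu10, xu11, xl00, xl01, xl10, xl11, ww00]; ring
  · rw [mul01, mul00, mul01]; simp only [xu00, xu01, xu10, xu11, xl00, xl01, xl10, xl11, ww01]; ring
  · rw [mul10, mul10, mul11]; simp only [xu00, xu01, xu10, xu11, xl00, xl01, xl10, xl11, ww10]; ring
  · rw [mul11, mul10, mul11]; simp only [xu00, xu01, xu10, xu11, xl00, xl01, xl10, xl11, ww11]; ring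

theorem ww_sq : (ww : SL(2, F)) * ww = -1 := by
  apply sl_ext
  · rw [mul00, neg00, one_val]; simp [ww00, ww01, ww10]
  · rw [mul01, neg00, one_val]; simp [ww00, ww01, ww11]
  · rw [mul10, neg00, one_val]; simp [ww00, ww11, ww10]
  · rw [mul11, neg00, one_val]; simp [ww11, ww01, ww10]

theorem ww_not_mem : (ww : SL(2, F)) ∉ BS F := by
  rw [mem_BS, ww10]
  exact neg_ne_zero.2 one_ne_zero

/-- the matrices `w(t)` -/
theorem wt_val (A B : F) : (xu A * xl (-B) * xu A : SL(2, F)) 0 0 = 1 - A * B ∧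
    (xu A * xl (-B) * xu A : SL(2, F)) 1 1 = 1 - A * B ∧
    (xu A * xl (-B) * xu A : SL(2, F)) 1 0 = -B := by
  refine ⟨?_, ?_, ?_⟩
  · rw [mul00, mul00, mul01]; simp only [xu00, xu01, xu10, xu11, xl00, xl01, xl10, xl11]; ring
  · rw [mul11, mul10, mul11]; simp only [xu00, xu01, xu10, xu11, xl00, xl01, xl10, xl11]; ring
  · rw [mul10, mul10, mul11]; simp only [xu00, xu01, xu10, xu11, xl00, xl01, xl10, xl11]; ring

theorem sq_of_trace_zero {m : SL(2, F)} (h : m 0 0 + m 1 1 = 0) : m * m = -1 := by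
  have hd := det_eq m
  apply sl_ext
  · rw [mul00, neg00, one_val, if_pos rfl]; linear_combination -hd + (m 0 0) * h
  · rw [mul01, neg00, one_val, if_neg (by decide)]; linear_combination (m 0 1) * h
  · rw [mul10, neg00, one_val, if_neg (by decide)]; linear_combination (m 1 0) * h
  · rw [mul11, neg00, one_val, if_pos rfl]; linear_combination -hd + (m 1 1) * h

variable [Finite F] {p : ℕ} [Fact p.Prime] [CharP F p]

theorem normalized (hp : p ≠ 2) {π β : SL(2, F) →* K} (h : Pair π β) (a : F ≃+ F)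
    (ha : ∀ u, β (xu u) = π (xu (a u))) (h1 : a 1 = 1) {m : SL(2, F)} (hm : β ww = π m)
    (hm0 : m 0 0 = 0) : ∃ f : F ≃+* F, ∀ s, β s = π (fS f s) := by
  have h2 := two_ne (F := F) hp
  obtain ⟨hm10, htr⟩ := trace_zero hp h ww_sq ww_not_mem hm
  have hm1 : m 1 1 = 0 := by rw [hm0, zero_add] at htr; exact htr
  -- the lower unipotent matrices
  have hl : ∀ v, β (xl v) = π (xl (m 1 0 ^ 2 * a v)) := by
    intro v
    have e1 : xl v = (ww : SL(2, F)) * xu (-v) * ww⁻¹ := by
      rw [anti_xu _ ww00 ww11, ww10]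
      congr 1
      ring
    rw [e1, map_mul, map_mul, map_inv, hm, ha, ← map_inv, ← map_mul, ← map_mul,
      anti_xu _ hm0 hm1, map_neg]
    congr 2
    ring
  have hc : m 1 0 ^ 2 = 1 := by
    have e1 : π m = π (xu 1 * xl (-(m 1 0 ^ 2)) * xu 1) := by
      rw [← hm, ww_eq, map_mul, map_mul, hl, ha, h1, map_neg, h1, map_mul, map_mul]
      congr 4
      ring
    have e2 := (wt_val (1 : F) (m 1 0 ^ 2)).1
    rcases eq_or_neg h.kπ e1 with e3 | e3
    · have e4 := ent e3 0 0
      rw [hm0, e2] at e4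
      linear_combination e4
    · have e4 := ent e3 0 0
      rw [hm0, neg00, e2] at e4
      linear_combination -e4
  have hl' : ∀ v, β (xl v) = π (xl (a v)) := by
    intro v
    rw [hl, hc, one_mul]
  -- squares
  have hsq : ∀ t, t ≠ 0 → a (t ^ 2) = a t ^ 2 := by
    intro t ht
    set n : SL(2, F) := xu (a t⁻¹) * xl (-(a t)) * xu (a t⁻¹) with hn
    set w : SL(2, F) := xu t⁻¹ * xl (-t) * xu t⁻¹ with hw
    obtain ⟨w0, w1, w2⟩ := wt_val t⁻¹ t
    rw [← hw, inv_mul_cancel₀ ht, sub_self] at w0 w1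
    rw [← hw] at w2
    obtain ⟨n0, n1, n2⟩ := wt_val (a t⁻¹) (a t)
    rw [← hn] at n0 n1 n2
    have hwn : β w = π n := by
      rw [hw, map_mul, map_mul, hl', ha, hn, map_mul, map_mul, map_neg]
    have hwB : w ∉ BS F := by
      rw [mem_BS, w2]
      exact neg_ne_zero.2 ht
    obtain ⟨_, ht0⟩ := trace_zero hp h (sq_of_trace_zero (by rw [w0, w1, add_zero])) hwB hwn
    have hAB : 1 - a t⁻¹ * a t = 0 := by
      rw [n0, n1] at ht0
      have h3 : 2 * (1 - a t⁻¹ * a t) = 0 := by linear_combination ht0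
      exact (mul_eq_zero.1 h3).resolve_left h2
    rw [hAB] at n0 n1
    clear_value n w
    have e1 : β (w * xu 1 * w⁻¹) = π (n * xu 1 * n⁻¹) := by
      rw [map_mul, map_mul, map_inv, hwn, ha, h1, map_mul, map_mul, map_inv]
    rw [anti_xu _ w0 w1, anti_xu _ n0 n1, w2, n2, hl'] at e1
    have e2 := xl_inj' hp h.kπ e1
    rw [map_neg] at e2
    have e3 := neg_injective e2
    rw [neg_sq, neg_sq, mul_one, mul_one] at e3
    exact e3
  have hsq' : ∀ t, a (t ^ 2) = a t ^ 2 := by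
    intro t
    by_cases ht : t = 0
    · rw [ht, map_zero, zero_pow two_ne_zero, map_zero]
    · exact hsq t ht
  have hmul : ∀ s t, a (s * t) = a s * a t := by
    intro s t
    have e1 := hsq' (s + t)
    have e2 : (s + t) ^ 2 = s ^ 2 + s * t + s * t + t ^ 2 := by ring
    rw [e2, map_add, map_add, map_add, hsq', hsq', map_add] at e1
    have e3 : 2 * (a (s * t) - a s * a t) = 0 := by linear_combination e1
    exact sub_eq_zero.1 ((mul_eq_zero.1 e3).resolve_left h2)
  let f : F ≃+* F := { a with map_mul' := hmul }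
  have hf : ∀ x, f x = a x := fun _ => rfl
  refine ⟨f, fun s => ?_⟩
  change β s = (π.comp (fS f).toMonoidHom) s
  apply hom_ext
  · intro b
    rw [ha]
    change _ = π (fS f (xu b))
    congr 1
    apply sl_ext <;> rw [fS_val] <;> simp only [xu00, xu01, xu10, xu11, map_one, map_zero, hf, h1]
  · intro b
    rw [hl']
    change _ = π (fS f (xl b))
    congr 1
    apply sl_ext <;> rw [fS_val] <;> simp only [xl00, xl01, xl10, xl11, map_one, map_zero, hf, h1]

/-- MAIN STATEMENT of A7 -/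
theorem exists_act (hp : p ≠ 2) {π β : SL(2, F) →* K} (h : Pair π β) :
    ∃ g ∈ BG F, ∃ f : F ≃+* F, ∀ s, β s = π (act g f s) := by
  obtain ⟨a, ha⟩ := exists_a hp h
  -- first normalisation
  obtain ⟨d, hd⟩ := a.surjective 1
  have hd0 : d ≠ 0 := by
    rintro rfl
    rw [map_zero] at hd
    exact zero_ne_one hd
  have g1 : up (Units.mk0 d hd0) 1 0 ∈ BG F := up_mem _ _ _
  have H1 := h.comp g1
  obtain ⟨b, hb⟩ := exists_a hp H1
  have hb1 : b 1 = 1 := by
    apply xu_inj' hp h.kπ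
    rw [← hb]
    change β (cj _ (xu 1)) = _
    rw [cj_dd, Units.val_mk0, mul_one, ha, hd]
  -- second normalisation
  obtain ⟨m, hm⟩ := h.surj (β (cj (up (Units.mk0 d hd0) 1 0) ww))
  obtain ⟨hm10, htr⟩ := trace_zero hp H1 ww_sq ww_not_mem (m := m) hm.symm
  obtain ⟨r, hr⟩ := b.surjective (-(m 0 0 / m 1 0))
  have g2 : up 1 1 r ∈ BG F := up_mem _ _ _
  have H2 := H1.comp g2
  have hc : ∀ u, ((β.comp (cj (up (Units.mk0 d hd0) 1 0)).toMonoidHom).comp
      (cj (up 1 1 r)).toMonoidHom) (xu u) = π (xu (b u)) := by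
    intro u
    change (β.comp (cj (up (Units.mk0 d hd0) 1 0)).toMonoidHom) (cj (up 1 1 r) (xu u)) = _
    rw [cj_xu, ← xu_add, ← xu_neg, ← xu_add, hb]
    congr 3
    ring
  have hw : ((β.comp (cj (up (Units.mk0 d hd0) 1 0)).toMonoidHom).comp
      (cj (up 1 1 r)).toMonoidHom) ww = π (xu (b r) * m * (xu (b r))⁻¹) := by
    change (β.comp (cj (up (Units.mk0 d hd0) 1 0)).toMonoidHom) (cj (up 1 1 r) ww) = _
    rw [cj_xu, map_mul, map_mul, map_inv, hb, map_mul, map_mul, map_inv, hm]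
    rfl
  have h00 : (xu (b r) * m * (xu (b r))⁻¹) 0 0 = 0 := by
    rw [← xu_neg, mul00, mul00, mul01, xu00, xu00, xu01, xu10, hr]
    field_simp
    ring
  obtain ⟨f, hf⟩ := normalized hp H2 b hc hb1 hw h00
  set g := up (Units.mk0 d hd0) 1 0 * up 1 1 r with hg
  have hgB : g ∈ BG F := mul_mem g1 g2
  refine ⟨fG f g⁻¹, fG_mem.2 (inv_mem hgB), f, fun s => ?_⟩
  have h3 : β (cj g (cj g⁻¹ s)) = π (fS f (cj g⁻¹ s)) := by
    rw [← hf, hg, cj_mul]
    rfl
  rw [← cj_mul, mul_inv_cancel] at h3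
  have h4 : cj (1 : GL (Fin 2) F) s = s := by
    apply Matrix.SpecialLinearGroup.toGL_injective
    rw [toGL_cj]
    group
  rw [h4] at h3
  rw [h3, fS_cj, act_apply]

end Pool.Agent.Helper57.PL
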