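import Pool.Agent.Helper57.PL.Sl

/-!
# Project PL, module A7: homomorphisms of `SL₂(F)` preserving the upper triangular subgroup

Let `π, β : SL₂(F) → K` be homomorphisms with kernels contained in `{1, -1}`, `π` surjective, such
that `β s ∈ π(B)` iff `s ∈ B`. Then `β = π ∘ act g f` for an upper triangular `g` and a field
automorphism `f`.
-/

open Matrix
open scoped MatrixGroups

namespace Pool.Agent.Helper57.PL

open Pool.Agent.Helper55.PL

variable {F : Type} [Field F] {K : Type} [Group K]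

/-- the hypotheses on the two homomorphisms -/
structure Pair (π β : SL(2, F) →* K) : Prop where
  kπ : ∀ s, π s = 1 → s = 1 ∨ s = -1
  kβ : ∀ s, β s = 1 → s = 1 ∨ s = -1
  surj : Function.Surjective π
  mem : ∀ s ∈ BS F, ∃ t ∈ BS F, β s = π t
  mem' : ∀ s, ∀ t ∈ BS F, β s = π t → s ∈ BS F

theorem ent {s t : SL(2, F)} (h : s = t) (i j : Fin 2) : s i j = t i j := by rw [h]

theorem eq_or_neg {π : SL(2, F) →* K} (hπ : ∀ s, π s = 1 → s = 1 ∨ s = -1) {s t : SL(2, F)}
    (h : π s = π t) : s = t ∨ s = -t := by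
  have h1 : π (s * t⁻¹) = 1 := by rw [map_mul, map_inv, h, mul_inv_cancel]
  rcases hπ _ h1 with h2 | h2
  · left; exact mul_inv_eq_one.1 h2
  · right
    rw [mul_inv_eq_iff_eq_mul] at h2
    rw [h2, neg_mul, one_mul]

theorem pow_BS {t : SL(2, F)} (ht : t ∈ BS F) (n : ℕ) :
    (t ^ n) 1 0 = 0 ∧ (t ^ n) 0 0 = t 0 0 ^ n := by
  rw [mem_BS] at ht
  induction n with
  | zero => simp [one_val]
  | succ n ih =>
    refine ⟨?_, ?_⟩
    · rw [pow_succ, mul10, ih.1, ht]; ring
    · rw [pow_succ, mul00, ih.2, ht]; ring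

variable [Finite F] {p : ℕ} [Fact p.Prime] [CharP F p]

theorem two_ne (hp : p ≠ 2) : (2 : F) ≠ 0 := by
  intro h
  have h1 : ((2 : ℕ) : F) = 0 := by exact_mod_cast h
  rw [CharP.cast_eq_zero_iff F p] at h1
  exact hp ((Nat.prime_dvd_prime_iff_eq Fact.out Nat.prime_two).1 h1)

theorem xu_pow (u : F) (n : ℕ) : xu u ^ n = xu (n * u) := by
  induction n with
  | zero => rw [pow_zero, Nat.cast_zero, zero_mul, xu_zero]
  | succ n ih => rw [pow_succ, ih, ← xu_add, Nat.cast_succ, add_mul, one_mul]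

theorem exists_xu (hp : p ≠ 2) {π : SL(2, F) →* K} (hπ : ∀ s, π s = 1 → s = 1 ∨ s = -1)
    {t : SL(2, F)} (ht : t ∈ BS F) (h : π t ^ p = 1) : ∃ u, π t = π (xu u) := by
  have h2 := two_ne (F := F) hp
  have hd := det_eq t
  have ht' := mem_BS.1 ht
  rw [ht', mul_zero, sub_zero] at hd
  rw [← map_pow] at h
  obtain ⟨h3, h4⟩ := pow_BS ht p
  rcases hπ _ h with h1 | h1
  · rw [h1, one_val, if_pos rfl] at h4
    have h5 : t 0 0 = 1 := by
      apply frobenius_inj F p
      rw [frobenius_def, frobenius_def, one_pow]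
      exact h4.symm
    refine ⟨t 0 1, ?_⟩
    congr 1
    rw [h5, one_mul] at hd
    exact sl_ext h5 rfl ht' hd
  · rw [h1, neg00, one_val, if_pos rfl] at h4
    have h5 : t 0 0 = -1 := by
      apply frobenius_inj F p
      rw [frobenius_def, frobenius_def, (((Fact.out : p.Prime).odd_of_ne_two hp)).neg_one_pow]
      exact h4.symm
    have h6 : π (-1) = 1 := by rw [← h1]; exact h
    refine ⟨-(t 0 1), ?_⟩
    have h7 : t = (-1) * xu (-(t 0 1)) := by
      rw [h5] at hd
      rw [neg_mul, one_mul]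
      apply sl_ext
      · rw [neg00, xu00, h5]
      · rw [neg00, xu01, neg_neg]
      · rw [neg00, xu10, ht', neg_zero]
      · rw [neg00, xu11]; linear_combination -hd
    conv_lhs => rw [h7]
    rw [map_mul, h6, one_mul]

theorem xu_inj' (hp : p ≠ 2) {π : SL(2, F) →* K} (hπ : ∀ s, π s = 1 → s = 1 ∨ s = -1)
    {u v : F} (h : π (xu u) = π (xu v)) : u = v := by
  have h2 := two_ne (F := F) hp
  rcases eq_or_neg hπ h with h1 | h1
  · exact ent h1 0 1
  · exfalso
    have h3 := ent h1 0 0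
    rw [xu00, neg00, xu00] at h3
    apply h2
    linear_combination h3

theorem xl_inj' (hp : p ≠ 2) {π : SL(2, F) →* K} (hπ : ∀ s, π s = 1 → s = 1 ∨ s = -1)
    {u v : F} (h : π (xl u) = π (xl v)) : u = v := by
  have h2 := two_ne (F := F) hp
  rcases eq_or_neg hπ h with h1 | h1
  · exact ent h1 1 0
  · exfalso
    have h3 := ent h1 0 0
    rw [xl00, neg00, xl00] at h3
    apply h2
    linear_combination h3

/-- the action on the unipotent matrices -/
theorem exists_a (hp : p ≠ 2) {π β : SL(2, F) →* K} (h : Pair π β) :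
    ∃ a : F ≃+ F, ∀ u, β (xu u) = π (xu (a u)) := by
  have h1 : ∀ u, ∃ u', β (xu u) = π (xu u') := by
    intro u
    obtain ⟨t, ht, hut⟩ := h.mem _ (xu_mem u)
    have h2 : π t ^ p = 1 := by
      rw [← hut, ← map_pow, xu_pow, CharP.cast_eq_zero, zero_mul, xu_zero, map_one]
    obtain ⟨u', hu'⟩ := exists_xu hp h.kπ ht h2
    exact ⟨u', by rw [hut, hu']⟩
  choose a ha using h1
  have hadd : ∀ u v, a (u + v) = a u + a v := by
    intro u v
    apply xu_inj' hp h.kπ
    rw [← ha, xu_add, map_mul, ha, ha, xu_add, map_mul]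
  have hinj : Function.Injective (AddMonoidHom.mk' a hadd) := by
    intro u v huv
    apply xu_inj' hp h.kβ
    rw [ha, ha]
    change a u = a v at huv
    rw [huv]
  exact ⟨AddEquiv.ofBijective (AddMonoidHom.mk' a hadd) (Finite.injective_iff_bijective.1 hinj), ha⟩

/-- the image of an element with square `-1` outside of the upper triangular subgroup has trace
zero -/
theorem trace_zero (hp : p ≠ 2) {π β : SL(2, F) →* K} (h : Pair π β) {s m : SL(2, F)}
    (hs : s * s = -1) (hsB : s ∉ BS F) (hm : β s = π m) : m 1 0 ≠ 0 ∧ m 0 0 + m 1 1 = 0 := by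
  have h2 := two_ne (F := F) hp
  have h10 : m 1 0 ≠ 0 := fun hc => hsB (h.mem' s m (mem_BS.2 hc) hm)
  refine ⟨h10, ?_⟩
  obtain ⟨a, ha⟩ := exists_a hp h
  obtain ⟨u, hu⟩ := a.surjective 1
  have h3 : π (m * m * xu 1) = π (xu 1 * (m * m)) := by
    rw [map_mul, map_mul, ← hm, map_mul, map_mul, ← hm, ← hu, ← ha, ← map_mul, ← map_mul,
      ← map_mul, hs, neg_mul, one_mul, mul_neg, mul_one]
  have e10 : (m * m) 1 0 = m 1 0 * (m 0 0 + m 1 1) := by rw [mul10]; ring
  rcases eq_or_neg h.kπ h3 with h4 | h4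
  · have h5 := ent h4 0 0
    rw [mul00 (m * m), mul00 (xu 1), xu00, xu10, xu01, e10] at h5
    have h6 : m 1 0 * (m 0 0 + m 1 1) = 0 := by linear_combination -h5
    exact (mul_eq_zero.1 h6).resolve_left h10
  · have h5 := ent h4 1 0
    rw [neg00, mul10 (m * m), mul10 (xu 1), xu00, xu10, xu11, e10] at h5
    have h6 : 2 * (m 1 0 * (m 0 0 + m 1 1)) = 0 := by linear_combination h5
    exact (mul_eq_zero.1 ((mul_eq_zero.1 h6).resolve_left h2)).resolve_left h10

end Pool.Agent.Helper57.PL
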