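import Pool.Agent.Helper57.PL.Infl

/-!
# Project PL: from `SL₂(F)` to its central quotients, matched characters
-/

open Matrix
open scoped MatrixGroups

namespace Pool.Agent.Helper57.PL

open Pool.Agent.Helper55.PL Pool.Agent.Helper42.INC Pool.Agent.Helper7.MK

variable {F : Type} [Field F] [Finite F] {p : ℕ} [Fact p.Prime] [CharP F p] {K : Type} [Group K]

theorem exists_rep (hp : p ≠ 2) {π : SL(2, F) →* K} (hπs : Function.Surjective π)
    (hπ : ∀ s, π s = 1 → s = 1 ∨ s = -1) {α : MulAut K}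
    (hα : ∀ x, α x ∈ (BS F).map π ↔ x ∈ (BS F).map π) :
    ∃ g ∈ BG F, ∃ f : F ≃+* F, ∀ s, α (π s) = π (act g f s) :=
  exists_act hp (pair_of hπs hπ hα)

theorem R_congr (hp : p ≠ 2) {π : SL(2, F) →* K} (hπ : ∀ s, π s = 1 → s = 1 ∨ s = -1)
    {θ : SL(2, F) → ℂ} {d : ℕ} {R : GL (Fin 2) F → (F ≃+* F) → Matrix (Fin d) (Fin d) ℂ}
    (h2 : ∀ g f g' f', g ∈ BG F → g' ∈ BG F → (∀ s, θ (act g f s) = θ s) →
      (∀ s, θ (act g' f' s) = θ s) → R (g * fG f g') (f * f') = R g f * R g' f')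
    (h5 : ∀ z : Fˣ, R (sc z) 1 = 1) {g g' : GL (Fin 2) F} {f f' : F ≃+* F} (hg : g ∈ BG F)
    (hg' : g' ∈ BG F) (hs' : ∀ s, θ (act g' f' s) = θ s)
    (h : ∀ s, π (act g f s) = π (act g' f' s)) : R g f = R g' f' := by
  have h1 : ∀ s, act g f s = act g' f' s := fun s =>
    act_eq hp hπ (A := (act g f).toMonoidHom) (A' := (act g' f').toMonoidHom) h s
  obtain ⟨rfl, z, rfl⟩ := act_unique hg hg' h1
  have h3 := h2 (sc z) 1 g' f (up_mem _ _ _) hg' (fun s => by rw [act_sc]) hs'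
  rw [fG_one, one_mul, h5, one_mul] at h3
  exact h3

theorem matched_of (hp : p ≠ 2) {π : SL(2, F) →* K} (hπs : Function.Surjective π)
    (hπ : ∀ s, π s = 1 → s = 1 ∨ s = -1) {θ : K → ℂ} {φ : (BS F).map π → ℂ}
    (hθ : θ 1 ≠ 0) (hφ : φ 1 ≠ 0) {θ' : SL(2, F) → ℂ} {φ' : BS F → ℂ}
    (eθ : ∀ s, θ' s = θ (π s)) (eφ : ∀ t, φ' t = φ (π.subgroupMap (BS F) t))
    (h : MatchedS θ' φ') :
    MatchedAut ((BS F).map π) θ φ := by
  obtain ⟨d, D, R, h1, h2, h3, h4, h5⟩ := h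
  set πT := π.subgroupMap (BS F) with hπT
  have hπTs : Function.Surjective πT := π.subgroupMap_surjective (BS F)
  have hπT1 : ∀ t, ((πT t : (BS F).map π) : K) = π t := fun _ => rfl
  have hfs : Function.Surjective (π.prodMap πT) := by
    rintro ⟨a, b⟩
    obtain ⟨x, rfl⟩ := hπs a
    obtain ⟨y, rfl⟩ := hπTs b
    exact ⟨(x, y), rfl⟩
  obtain ⟨DK, hDK⟩ := factor (π.prodMap πT) hfs D (by
    rintro ⟨z, w⟩ hzw
    have hz : π z = 1 := congrArg Prod.fst hzw
    have hw : πT w = 1 := congrArg Prod.snd hzw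
    have hw' : π w = 1 := congrArg Subtype.val hw
    have e : D (z, w) = D (z, 1) * D (1, w) := by
      rw [← map_mul, Prod.mk_mul_mk, mul_one, one_mul]
    have hzB : z ∈ BS F := by
      rcases hπ z hz with h | h
      · rw [h]; exact one_mem _
      · rw [h]; exact neg_one_mem
    have hz2 : (⟨z, hzB⟩ : BS F) * ⟨z, hzB⟩ = 1 := Subtype.ext (sq_one_of_pm (hπ z hz))
    have hw2 : w * w = 1 := Subtype.ext (sq_one_of_pm (hπ _ hw'))
    have hDz : D (((⟨z, hzB⟩ : BS F) : SL(2, F)), ⟨z, hzB⟩) = 1 :=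
      D_diag h4 h5 ⟨z, hzB⟩ (hπ z hz)
    have hDw : D ((w : SL(2, F)), w) = 1 := D_diag h4 h5 w (hπ _ hw')
    have hθ' : θ' 1 ≠ 0 := by
      rw [eθ, map_one]; exact hθ
    have hφ' : φ' 1 ≠ 0 := by
      rw [eφ, map_one]; exact hφ
    have a1 : D (z, 1) = 1 := (D_iff h1 hθ' hφ' hDz hz2).1.1 (fun x => by
      rw [eθ, eθ, map_mul]
      change θ (π z * π x) = _
      rw [hz, one_mul])
    have a2 : D (1, w) = 1 := (D_iff h1 hθ' hφ' hDw hw2).2.1.1 (fun x => by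
      rw [eφ, eφ, map_mul, hw, one_mul])
    rw [e, a1, a2, one_mul])
  have hDK' : ∀ (k : SL(2, F)) (t : BS F), DK (π k, πT t) = D (k, t) := fun k t => hDK (k, t)
  have hex : ∀ α : AutTh ((BS F).map π) θ, ∃ g ∈ BG F, ∃ f : F ≃+* F,
      ∀ s, α.1 (π s) = π (act g f s) := fun α => exists_rep hp hπs hπ α.2.1
  choose g hg f hf using hex
  have hst : ∀ α : AutTh ((BS F).map π) θ, ∀ s, θ' (act (g α) (f α) s) = θ' s := by
    intro α s
    rw [eθ, eθ, ← hf, α.2.2]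
  have hcongr : ∀ (α : AutTh ((BS F).map π) θ) (g' : GL (Fin 2) F) (f' : F ≃+* F), g' ∈ BG F →
      (∀ s, α.1 (π s) = π (act g' f' s)) → R (g α) (f α) = R g' f' := by
    intro α g' f' hg' hα
    refine R_congr hp hπ h2 h5 (hg α) hg' (fun s => ?_) (fun s => ?_)
    · rw [eθ, eθ, ← hα, α.2.2]
    · rw [← hf, hα]
  let RK : AutTh ((BS F).map π) θ →* Matrix (Fin d) (Fin d) ℂ :=
    { toFun := fun α => R (g α) (f α)
      map_one' := by
        have e : R (g 1) (f 1) = R (sc 1) 1 := by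
          apply hcongr 1 (sc 1) _ (up_mem _ _ _)
          intro s
          rw [act_sc]
          rfl
        rw [e, h5]
      map_mul' := by
        intro α β
        rw [← h2 _ _ _ _ (hg α) (hg β) (hst α) (hst β)]
        apply hcongr (α * β) _ _ (mul_mem (hg α) (fG_mem.2 (hg β)))
        intro s
        rw [act_mul, ← hf α, ← hf β]
        rfl }
  refine ⟨d, DK, RK, ?_, ?_, ?_⟩
  · intro k t
    obtain ⟨k, rfl⟩ := hπs k
    obtain ⟨t, rfl⟩ := hπTs t
    rw [hDK', h1, ← map_inv, eθ, eφ]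
  · intro α k t t' ht
    obtain ⟨k, rfl⟩ := hπs k
    obtain ⟨t, rfl⟩ := hπTs t
    have hmem : act (g α) (f α) t ∈ BS F := (act_mem (hg α) (f α)).2 t.2
    have ht' : t' = πT ⟨_, hmem⟩ := by
      apply Subtype.ext
      rw [ht, hπT1, hf, hπT1]
    rw [ht', hf, hDK', hDK']
    exact h3 (g α) (f α) k t ⟨_, hmem⟩ (hg α) (hst α) rfl
  · intro α t hα
    obtain ⟨t, rfl⟩ := hπTs t
    have e : R (g α) (f α) = R (Matrix.SpecialLinearGroup.toGL (t : SL(2, F))) 1 := by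
      apply hcongr α _ _ (toGL_mem_BG.2 t.2)
      intro s
      have e1 : act (Matrix.SpecialLinearGroup.toGL (t : SL(2, F))) 1 s =
          (t : SL(2, F)) * s * (t : SL(2, F))⁻¹ := by
        apply Matrix.SpecialLinearGroup.toGL_injective
        rw [toGL_act, fG_one, map_mul, map_mul, map_inv]
      rw [e1, hα, MulAut.conj_apply, hπT1, map_mul, map_mul, map_inv]
    change R (g α) (f α) = DK (π t, πT t)
    rw [e, h4, hDK']

end Pool.Agent.Helper57.PL
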