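import Pool.Agent.Helper57.PL.Syl
import Pool.Agent.Helper58.PSL.Cover
import Pool.Agent.Helper24.S7.Defs

/-!
# Project PL: `PSL₂(F)` is `p`-good
-/

open Matrix
open scoped MatrixGroups

namespace Pool.Agent.Helper57.PL

open Pool.Agent.Helper55.PL Pool.Agent.Helper42.INC Pool.Agent.Helper7.MK

variable {F : Type} [Field F] [Finite F] {p : ℕ} [Fact p.Prime] [CharP F p] {K : Type} [Group K]
  [Finite K]

theorem irrP_ne {G : Type} [Group G] [Finite G] (χ : IrrP p G) : χ.1 1 ≠ 0 := by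
  obtain ⟨n, h1, h2⟩ := irr_one χ.2.1
  rw [h2]
  exact_mod_cast h1.ne'

/-- invariance under the kernel on both sides -/
theorem inv_iff {π : SL(2, F) →* K} (hπ : ∀ s, π s = 1 → s = 1 ∨ s = -1) {θ : SL(2, F) → ℂ}
    {φ : BS F → ℂ} (hθ : θ 1 ≠ 0) (hφ : φ 1 ≠ 0) (h : MatchedS θ φ) :
    (∀ k ∈ π.ker, ∀ x, θ (k * x) = θ x) ↔
      (∀ k ∈ (π.subgroupMap (BS F)).ker, ∀ x, φ (k * x) = φ x) := by
  obtain ⟨d, D, R, h1, h2, h3, h4, h5⟩ := h
  have key : ∀ z : BS F, π z = 1 →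
      ((∀ x, θ (z * x) = θ x) ↔ (∀ x, φ (z * x) = φ x)) := by
    intro z hz
    obtain ⟨a1, a2, a3⟩ := D_iff (z := z) h1 hθ hφ (D_diag h4 h5 z (hπ _ hz))
      (Subtype.ext (sq_one_of_pm (hπ _ hz)))
    rw [a1, a2, a3]
  constructor
  · intro H k hk
    have hk' : π k = 1 := congrArg Subtype.val (MonoidHom.mem_ker.1 hk)
    exact (key k hk').1 (H k (MonoidHom.mem_ker.2 hk'))
  · intro H k hk
    have hk' : π k = 1 := MonoidHom.mem_ker.1 hk
    have hkB : k ∈ BS F := by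
      rcases hπ k hk' with h | h
      · rw [h]; exact one_mem _
      · rw [h]; exact neg_one_mem
    refine (key ⟨k, hkB⟩ hk').2 (H ⟨k, hkB⟩ ?_)
    rw [MonoidHom.mem_ker]
    exact Subtype.ext hk'

theorem good_at (hp : p ≠ 2) (hS : SLGood p F) {π : SL(2, F) →* K}
    (hπs : Function.Surjective π) (hπ : ∀ s, π s = 1 → s = 1 ∨ s = -1) :
    ∃ E : IrrP p K ≃ IrrP p ((BS F).map π),
      (∀ α : MulAut K, (∀ x, α x ∈ (BS F).map π ↔ x ∈ (BS F).map π) → ∀ θ θ' : IrrP p K,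
        (∀ x, θ'.1 x = θ.1 (α x)) → ∀ t t' : (BS F).map π, (t' : K) = α t →
          (E θ').1 t = (E θ).1 t') ∧
      (∀ θ, (deg (E θ).1 : ZMod p) ^ 2 = (deg θ.1 : ZMod p) ^ 2) ∧
      ∀ θ, MatchedAut ((BS F).map π) θ.1 (E θ).1 := by
  obtain ⟨e, he1, he2, he3⟩ := hS
  have hπTs : Function.Surjective (π.subgroupMap (BS F)) := π.subgroupMap_surjective (BS F)
  have hinv : ∀ θ : IrrP p SL(2, F), (∀ k ∈ π.ker, ∀ x, θ.1 (k * x) = θ.1 x) ↔
      (∀ k ∈ (π.subgroupMap (BS F)).ker, ∀ x, (e θ).1 (k * x) = (e θ).1 x) := fun θ =>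
    inv_iff hπ (irrP_ne θ) (irrP_ne (e θ)) (he3 θ)
  let E : IrrP p K ≃ IrrP p ((BS F).map π) :=
    (inflP π hπs p).trans ((e.subtypeEquiv hinv).trans (inflP (π.subgroupMap (BS F)) hπTs p).symm)
  have hE : ∀ θ, infl (π.subgroupMap (BS F)) hπTs p (E θ) = e (infl π hπs p θ) := by
    intro θ
    have h1 : (inflP (π.subgroupMap (BS F)) hπTs p) (E θ) =
        (e.subtypeEquiv hinv) (inflP π hπs p θ) := Equiv.apply_symm_apply _ _
    have h2 := congrArg (fun t => t.1) h1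
    exact h2
  have hEv : ∀ θ t, (E θ).1 (π.subgroupMap (BS F) t) = (e (infl π hπs p θ)).1 t := by
    intro θ t
    rw [← hE, infl_apply]
  refine ⟨E, ?_, ?_, ?_⟩
  · intro α hα θ θ' hθ t t' ht
    obtain ⟨g, hg, f, hf⟩ := exists_rep hp hπs hπ hα
    obtain ⟨t, rfl⟩ := hπTs t
    have hmem : act g f t ∈ BS F := (act_mem hg f).2 t.2
    have ht' : t' = π.subgroupMap (BS F) ⟨_, hmem⟩ := by
      apply Subtype.ext
      rw [ht]
      exact hf t
    rw [ht', hEv, hEv]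
    refine he1 g f hg (infl π hπs p θ) (infl π hπs p θ') (fun s => ?_) t ⟨_, hmem⟩ rfl
    rw [infl_apply, infl_apply, hθ, hf]
  · intro θ
    have h1 := he2 (infl π hπs p θ)
    have h2 : deg (infl π hπs p θ).1 = deg θ.1 := by
      unfold deg
      rw [infl_apply, map_one]
    have h3 : deg (e (infl π hπs p θ)).1 = deg (E θ).1 := by
      unfold deg
      rw [← hEv, map_one]
    rw [h2, h3] at h1
    exact h1
  · intro θ
    exact matched_of hp hπs hπ (irrP_ne θ) (irrP_ne (E θ)) (θ' := (infl π hπs p θ).1)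
      (φ' := (e (infl π hπs p θ)).1) (fun s => rfl) (fun t => (hEv θ t).symm)
      (he3 (infl π hπs p θ))

theorem good_of (hp : p ≠ 2) (hS : SLGood p F) {π : SL(2, F) →* K}
    (hπs : Function.Surjective π) (hc : π.ker ≤ Subgroup.center SL(2, F)) : Good p K := by
  intro Q
  have hπ := ker_pm hc
  obtain ⟨P, hP⟩ := exists_sylow (p := p) hp hπs hπ
  obtain ⟨c, hcQ⟩ := MulAction.exists_smul_eq K P Q
  set π' : SL(2, F) →* K := (MulAut.conj c).toMonoidHom.comp π with hπ'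
  have hπs' : Function.Surjective π' := (MulAut.conj c).surjective.comp hπs
  have hk' : ∀ s, π' s = 1 → s = 1 ∨ s = -1 := by
    intro s hs
    change MulAut.conj c (π s) = 1 at hs
    exact hπ s ((MulAut.conj c).injective (by rw [hs, map_one]))
  have hQ : (Q : Subgroup K) = (US F).map π' := by
    rw [← hcQ, Sylow.coe_subgroup_smul, hP, hπ', ← Subgroup.map_map]
    rfl
  have hN : Subgroup.normalizer (Q : Set K) = (BS F).map π' := by
    have h1 := normalizer_US hp hπs' hk'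
    rw [← hQ] at h1
    exact h1
  obtain ⟨E, h1, h2, h3⟩ := good_at hp hS hπs' hk'
  refine ⟨(BS F).map π', hN.le, ?_, ?_, E, h1, h2, h3⟩
  · intro h
    have h4 : π' ww ∈ (BS F).map π' := by rw [h]; exact Subgroup.mem_top _
    rw [mem_map_BS hk'] at h4
    exact ww_not_mem h4
  · intro α hα x
    rw [← hN]
    have key : ∀ α : MulAut K, (∀ x, α x ∈ Q ↔ x ∈ Q) → ∀ x,
        x ∈ Subgroup.normalizer ((Q : Subgroup K) : Set K) →
          α x ∈ Subgroup.normalizer ((Q : Subgroup K) : Set K) := by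
      intro α hα x hx
      rw [Subgroup.mem_normalizer_iff] at hx ⊢
      intro y
      obtain ⟨y, rfl⟩ := α.surjective y
      rw [← map_inv, ← map_mul, ← map_mul]
      exact (hα y).trans ((hx y).trans (hα _).symm)
    constructor
    · intro h
      have h4 := key α⁻¹ (fun x => by
        rw [← hα, MulAut.apply_inv_self]) _ h
      rwa [MulAut.inv_apply_self] at h4
    · exact key α hα x

/-- `PSL₂(F)` is `p`-good -/
theorem pgood_of (hp : p ≠ 2) (hS : SLGood p F) : Pool.Agent.Helper24.S7.PGood p PSL(2, F) := by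
  intro K _ _ hperf ⟨e⟩ hz
  obtain ⟨π, hπs, hc⟩ := Pool.Agent.Helper58.PSL.cover hp hperf e hz
  exact good_of hp hS hπs hc

end Pool.Agent.Helper57.PL
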