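import Pool.Agent.Helper57.PL.Uniq

/-!
# Project PL: from `SL₂(F)` to its central quotients, the bijection
-/

open Matrix
open scoped MatrixGroups

namespace Pool.Agent.Helper57.PL

open Pool.Agent.Helper55.PL Pool.Agent.Helper42.INC Pool.Agent.Helper7.MK

section infl

variable {X Y : Type} [Group X] [Group Y] [Finite X] [Finite Y] (f : X →* Y)
  (hf : Function.Surjective f) (p : ℕ)

/-- inflation of characters of degree prime to `p` -/
def infl (η : IrrP p Y) : IrrP p X :=
  ⟨fun x => η.1 (f x), irr_infl f hf η.2.1, by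
    obtain ⟨n, h1, h2⟩ := η.2.2
    exact ⟨n, by change η.1 (f 1) = n; rw [map_one]; exact h1, h2⟩⟩

theorem infl_apply (η : IrrP p Y) (x : X) : (infl f hf p η).1 x = η.1 (f x) := rfl

/-- characters of degree prime to `p` of the quotient -/
noncomputable def inflP :
    IrrP p Y ≃ {χ : IrrP p X // ∀ k ∈ f.ker, ∀ x, χ.1 (k * x) = χ.1 x} := by
  refine Equiv.ofBijective (fun η => ⟨infl f hf p η, ?_⟩) ⟨?_, ?_⟩
  · intro k hk x
    simp only [infl_apply, map_mul, MonoidHom.mem_ker.1 hk, one_mul]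
  · intro η η' he
    have h0 : infl f hf p η = infl f hf p η' := congrArg (fun t => t.1) he
    have h1 : ∀ x, (infl f hf p η).1 x = (infl f hf p η').1 x := by
      intro x
      rw [h0]
    apply Subtype.ext
    ext y
    obtain ⟨x, rfl⟩ := hf y
    exact h1 x
  · rintro ⟨⟨χ, hχ, n, hn, hpn⟩, hk⟩
    have hη : ∃ η : Y → ℂ, χ = fun x => η (f x) := by
      refine ⟨fun y => χ (Function.surjInv hf y), ?_⟩
      ext x
      have h1 : f (Function.surjInv hf (f x)) = f x := Function.surjInv_eq hf (f x)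
      have h2 : x * (Function.surjInv hf (f x))⁻¹ ∈ f.ker := by
        rw [MonoidHom.mem_ker, map_mul, map_inv, h1, mul_inv_cancel]
      have h3 := hk _ h2 (Function.surjInv hf (f x))
      rw [inv_mul_cancel_right] at h3
      exact h3
    obtain ⟨η, hη⟩ := hη
    refine ⟨⟨η, irr_defl f hf hχ η hη, n, ?_, hpn⟩, ?_⟩
    · rw [hη] at hn
      simpa using hn
    · apply Subtype.ext
      apply Subtype.ext
      exact hη.symm

theorem inflP_val (η : IrrP p Y) : ((inflP f hf p) η).1 = infl f hf p η := rfl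

end infl

section

variable {F : Type} [Field F] {K : Type} [Group K]

theorem center_pm {s : SL(2, F)} (h : s ∈ Subgroup.center SL(2, F)) : s = 1 ∨ s = -1 := by
  obtain ⟨r, hr, hs⟩ := Matrix.SpecialLinearGroup.mem_center_iff.1 h
  rw [Fintype.card_fin] at hr
  have h1 : (r - 1) * (r + 1) = 0 := by linear_combination hr
  have e : ∀ i j, s i j = if i = j then r else 0 := by
    intro i j
    rw [← hs, Matrix.scalar_apply, Matrix.diagonal_apply]
  rcases mul_eq_zero.1 h1 with h2 | h2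
  · left
    have h3 : r = 1 := by linear_combination h2
    apply sl_ext <;> rw [e, one_val, h3]
  · right
    have h3 : r = -1 := by linear_combination h2
    apply sl_ext <;> rw [e, neg00, one_val, h3] <;> simp

theorem ker_pm {π : SL(2, F) →* K} (hc : π.ker ≤ Subgroup.center SL(2, F)) :
    ∀ s, π s = 1 → s = 1 ∨ s = -1 := fun s hs => center_pm (hc (MonoidHom.mem_ker.2 hs))

theorem neg_one_mem : (-1 : SL(2, F)) ∈ BS F := by
  rw [mem_BS, neg00, one_val, if_neg (by decide), neg_zero]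

theorem neg_mem {t : SL(2, F)} (h : t ∈ BS F) : -t ∈ BS F := by
  rw [mem_BS] at h ⊢
  rw [neg00, h, neg_zero]

theorem mem_map_BS {π : SL(2, F) →* K} (hπ : ∀ s, π s = 1 → s = 1 ∨ s = -1) {s : SL(2, F)} :
    π s ∈ (BS F).map π ↔ s ∈ BS F := by
  constructor
  · rintro ⟨t, ht, hts⟩
    rcases eq_or_neg hπ hts with h | h
    · rw [← h]; exact ht
    · have : s = -t := by rw [h, neg_neg]
      rw [this]
      exact neg_mem ht
  · exact fun h => Subgroup.mem_map_of_mem π h

theorem pair_of {π : SL(2, F) →* K} (hπs : Function.Surjective π)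
    (hπ : ∀ s, π s = 1 → s = 1 ∨ s = -1) {α : MulAut K}
    (hα : ∀ x, α x ∈ (BS F).map π ↔ x ∈ (BS F).map π) :
    Pair π (α.toMonoidHom.comp π) where
  kπ := hπ
  kβ s hs := by
    change α (π s) = 1 at hs
    exact hπ s (α.injective (by rw [hs, map_one]))
  surj := hπs
  mem s hs := by
    obtain ⟨t, ht, h⟩ := (hα (π s)).2 (Subgroup.mem_map_of_mem π hs)
    exact ⟨t, ht, h.symm⟩
  mem' s t ht hst := by
    change α (π s) = π t at hst
    rw [← mem_map_BS hπ, ← hα, hst]
    exact Subgroup.mem_map_of_mem π ht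

theorem toGL_neg_one : Matrix.SpecialLinearGroup.toGL (-1 : SL(2, F)) = sc (-1) := by
  apply Units.ext
  rw [Matrix.SpecialLinearGroup.coe_GL_coe_matrix, sc, up_val]
  ext i j
  rw [neg00, one_val]
  fin_cases i <;> fin_cases j <;> simp

theorem toGL_one' : Matrix.SpecialLinearGroup.toGL (1 : SL(2, F)) = sc 1 := by
  rw [map_one, sc]
  apply Units.ext
  rw [up_val]
  ext i j
  fin_cases i <;> fin_cases j <;> simp

/-- the central elements act trivially under `D (z, z)` -/
theorem D_diag {d : ℕ} {D : SL(2, F) × BS F →* Matrix (Fin d) (Fin d) ℂ}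
    {R : GL (Fin 2) F → (F ≃+* F) → Matrix (Fin d) (Fin d) ℂ}
    (h4 : ∀ t : BS F, R (Matrix.SpecialLinearGroup.toGL (t : SL(2, F))) 1 = D (t, t))
    (h5 : ∀ z : Fˣ, R (sc z) 1 = 1) (z : BS F) (hz : (z : SL(2, F)) = 1 ∨ (z : SL(2, F)) = -1) :
    D (z, z) = 1 := by
  rw [← h4]
  rcases hz with h | h
  · rw [h, toGL_one', h5]
  · rw [h, toGL_neg_one, h5]

theorem sq_one_of_pm {z : SL(2, F)} (hz : z = 1 ∨ z = -1) : z * z = 1 := by
  rcases hz with h | h
  · rw [h, one_mul]
  · rw [h, neg_mul_neg, one_mul]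

theorem D_iff {θ : SL(2, F) → ℂ} {φ : BS F → ℂ} {d : ℕ}
    {D : SL(2, F) × BS F →* Matrix (Fin d) (Fin d) ℂ} (h1 : ∀ k t, (D (k, t)).trace = θ k * φ t⁻¹)
    (hθ : θ 1 ≠ 0) (hφ : φ 1 ≠ 0) {z : BS F} (hD : D (z, z) = 1) (hz : z * z = 1) :
    ((∀ x, θ (z * x) = θ x) ↔ D (z, 1) = 1) ∧ ((∀ x, φ (z * x) = φ x) ↔ D (1, z) = 1) ∧
      (D (z, 1) = 1 ↔ D (1, z) = 1) := by
  have hz' : (z : SL(2, F)) * z = 1 := by
    have := congrArg Subtype.val hz
    exact this
  have hzi : z⁻¹ = z := inv_eq_of_mul_eq_one_left hz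
  have hd : (d : ℂ) = θ 1 * φ 1 := by
    have h2 := h1 1 1
    rw [inv_one] at h2
    rw [← h2]
    change (d : ℂ) = (D 1).trace
    rw [map_one, Matrix.trace_one, Fintype.card_fin]
  refine ⟨⟨fun h => ?_, fun h x => ?_⟩, ⟨fun h => ?_, fun h x => ?_⟩, ?_⟩
  · apply eq_one_of_trace
    · rw [← map_mul, Prod.mk_mul_mk, hz', mul_one]
      exact map_one D
    · have h2 := h 1
      rw [mul_one] at h2
      rw [h1, h2, inv_one, hd]
  · have h2 : (D ((z : SL(2, F)) * x, 1)).trace = (D (x, 1)).trace := by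
      have : ((z : SL(2, F)) * x, (1 : BS F)) = ((z : SL(2, F)), (1 : BS F)) * (x, 1) := by
        rw [Prod.mk_mul_mk, mul_one]
      rw [this, map_mul, h, one_mul]
    rw [h1, h1, inv_one] at h2
    exact mul_right_cancel₀ hφ h2
  · apply eq_one_of_trace
    · rw [← map_mul, Prod.mk_mul_mk, hz, mul_one]
      exact map_one D
    · have h2 := h 1
      rw [mul_one] at h2
      rw [h1, hzi, h2, hd]
  · have h2 : (D (1, x⁻¹ * z)).trace = (D (1, x⁻¹)).trace := by
      have : ((1 : SL(2, F)), x⁻¹ * z) = ((1 : SL(2, F)), x⁻¹) * (1, z) := by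
        rw [Prod.mk_mul_mk, mul_one]
      rw [this, map_mul, h, mul_one]
    rw [h1, h1, inv_inv, _root_.mul_inv_rev, inv_inv, hzi] at h2
    exact mul_left_cancel₀ hθ h2
  · have h2 : D (z, 1) * D (1, z) = 1 := by
      rw [← map_mul, Prod.mk_mul_mk, mul_one, one_mul, hD]
    constructor
    · intro h
      rwa [h, one_mul] at h2
    · intro h
      rwa [h, mul_one] at h2

end

end Pool.Agent.Helper57.PL
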