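import Pool.Agent.Helper57.PL.Uniq
import Pool.Agent.Helper57.PL.Rep

/-!
# Project PL, modules A8 and A9: matched pairs of `SL₂(F)` and its upper triangular subgroup
-/

open Matrix
open scoped MatrixGroups

namespace Pool.Agent.Helper57.PL

open Pool.Agent.Helper55.PL Pool.Agent.Helper42.INC Pool.Agent.Helper7.MK

section L

variable {F : Type} [Field F] [Finite F]

/-- upper unipotent matrices as a homomorphism -/
def upHom : Multiplicative F →* GL (Fin 2) F where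
  toFun u := up 1 1 u.toAdd
  map_one' := by
    apply Units.ext
    rw [up_val, toAdd_one]
    ext i j
    fin_cases i <;> fin_cases j <;> simp
  map_mul' u v := by
    rw [up_mul, toAdd_mul]
    congr 1
    · simp
    · simp
    · simp [add_comm]

theorem fG_upHom (f : F ≃+* F) (u : F) : fG f (up 1 1 u) = up 1 1 (f u) := by
  rw [fG_up, map_one]

/-- field automorphisms on `GL₂` as a homomorphism -/
def fGHom : (F ≃+* F) →* MulAut (GL (Fin 2) F) where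
  toFun := fG
  map_one' := by
    ext1 g
    exact fG_one g
  map_mul' f f' := by
    ext1 g
    exact fG_mul f f' g

/-- MATCHED PAIRS, L-type -/
theorem matchedL {m : ℕ} (ρ : GL (Fin 2) F →* Matrix (Fin m) (Fin m) ℂ)
    (hρ : (fun g => (ρ g).trace) ∈ Irr (GL (Fin 2) F)) (ψ : Multiplicative F →* ℂˣ)
    (hψ : ∀ (f : F ≃+* F) (u : F), ψ (Multiplicative.ofAdd (f u)) = ψ (Multiplicative.ofAdd u))
    (hmult : B (fun u : Multiplicative F => (ρ (up 1 1 u.toAdd)).trace)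
      (fun u => ((ψ u : ℂˣ) : ℂ)) = 1)
    (Λ : BG F →* ℂˣ) (hsc : ∀ z, ρ (sc z) = ((Λ ⟨sc z, up_mem z z 0⟩ : ℂˣ) : ℂ) • (1 : Matrix _ _ ℂ))
    (hstab : ∀ f : F ≃+* F, (∀ s : SL(2, F), (ρ (Matrix.SpecialLinearGroup.toGL (fS f s))).trace =
      (ρ (Matrix.SpecialLinearGroup.toGL s)).trace) →
      (∀ g, (ρ (fG f g)).trace = (ρ g).trace) ∧
      ∀ (g : GL (Fin 2) F) (hg : g ∈ BG F), Λ ⟨fG f g, fG_mem.2 hg⟩ = Λ ⟨g, hg⟩) :
    MatchedS (fun s => (ρ (Matrix.SpecialLinearGroup.toGL s)).trace)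
      (fun t => ((Λ ⟨Matrix.SpecialLinearGroup.toGL (t : SL(2, F)), toGL_mem_BG.2 t.2⟩ : ℂˣ) : ℂ)) := by
  classical
  obtain ⟨v, hv0, hv, huniq⟩ := Rep.exists_vec (ρ.comp upHom) ψ hmult
  -- the stabilizer
  let Φ : Subgroup (F ≃+* F) :=
    { carrier := {f | ∀ g, (ρ (fG f g)).trace = (ρ g).trace}
      one_mem' := fun g => by rw [fG_one]
      mul_mem' := fun {f f'} hf hf' g => by rw [fG_mul, hf, hf']
      inv_mem' := fun {f} hf g => by
        have h1 := hf (fG f⁻¹ g)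
        rw [← fG_mul, mul_inv_cancel, fG_one] at h1
        exact h1.symm }
  obtain ⟨W, hW, hWv⟩ := Rep.exists_W (A := Φ) (fGHom.comp Φ.subtype) ρ hρ (fun r g => r.2 g)
    (fun u : F => up 1 1 u) (fun u => ((ψ (Multiplicative.ofAdd u) : ℂˣ) : ℂ))
    (fun r u => ⟨r.1 u, (fG_upHom r.1 u).symm, by rw [hψ]⟩) v hv0
    (fun u => hv (Multiplicative.ofAdd u)) (fun w hw => huniq w (fun u => hw u.toAdd))
  have hW' : ∀ (f : F ≃+* F) (hf : f ∈ Φ) g, W ⟨f, hf⟩ * ρ g = ρ (fG f g) * W ⟨f, hf⟩ :=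
    fun f hf g => hW ⟨f, hf⟩ g
  have hmemΦ : ∀ (g : GL (Fin 2) F) (f : F ≃+* F),
      (∀ s : SL(2, F), (ρ (Matrix.SpecialLinearGroup.toGL (act g f s))).trace =
        (ρ (Matrix.SpecialLinearGroup.toGL s)).trace) → f ∈ Φ ∧
        ∀ (g : GL (Fin 2) F) (hg : g ∈ BG F), Λ ⟨fG f g, fG_mem.2 hg⟩ = Λ ⟨g, hg⟩ := by
    intro g f h
    obtain ⟨h1, h2⟩ := hstab f (fun s => by
      rw [← h s, toGL_act, map_mul, Matrix.trace_mul_comm, ← map_mul, inv_mul_cancel_left, toGL_fS])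
    exact ⟨h1, h2⟩
  let Lm : GL (Fin 2) F → ℂ := fun g => if h : g ∈ BG F then ((Λ ⟨g, h⟩ : ℂˣ) : ℂ) else 1
  have hLm : ∀ g (h : g ∈ BG F), Lm g = ((Λ ⟨g, h⟩ : ℂˣ) : ℂ) := fun g h => dif_pos h
  have hLm0 : ∀ g, g ∈ BG F → Lm g ≠ 0 := fun g h => by rw [hLm g h]; exact Units.ne_zero _
  have hLmul : ∀ g g', g ∈ BG F → g' ∈ BG F → Lm (g * g') = Lm g * Lm g' := by
    intro g g' h h'
    rw [hLm _ h, hLm _ h', hLm _ (mul_mem h h'), ← Units.val_mul, ← map_mul]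
    rfl
  let Rf : GL (Fin 2) F → (F ≃+* F) → Matrix (Fin m) (Fin m) ℂ := fun g f =>
    if h : f ∈ Φ then (Lm g)⁻¹ • (ρ g * W ⟨f, h⟩) else 0
  have hRf : ∀ g f (h : f ∈ Φ), Rf g f = (Lm g)⁻¹ • (ρ g * W ⟨f, h⟩) := fun g f h => dif_pos h
  let D : SL(2, F) × BS F →* Matrix (Fin m) (Fin m) ℂ :=
    { toFun := fun x => (Lm (Matrix.SpecialLinearGroup.toGL (x.2 : SL(2, F))))⁻¹ •
        ρ (Matrix.SpecialLinearGroup.toGL x.1)
      map_one' := by
        have h1 : Lm (Matrix.SpecialLinearGroup.toGL ((1 : BS F) : SL(2, F))) = 1 := by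
          rw [hLm _ (toGL_mem_BG.2 (1 : BS F).2)]
          have : (⟨Matrix.SpecialLinearGroup.toGL ((1 : BS F) : SL(2, F)),
              toGL_mem_BG.2 (1 : BS F).2⟩ : BG F) = 1 := Subtype.ext (map_one _)
          rw [this, map_one, Units.val_one]
        change (Lm (Matrix.SpecialLinearGroup.toGL ((1 : BS F) : SL(2, F))))⁻¹ •
          ρ (Matrix.SpecialLinearGroup.toGL (1 : SL(2, F))) = 1
        rw [h1, map_one, map_one, inv_one, one_smul]
      map_mul' := by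
        rintro ⟨k, t⟩ ⟨k', t'⟩
        change (Lm (Matrix.SpecialLinearGroup.toGL ((t : SL(2, F)) * t')))⁻¹ •
          ρ (Matrix.SpecialLinearGroup.toGL (k * k')) = _
        rw [map_mul, map_mul, map_mul, hLmul _ _ (toGL_mem_BG.2 t.2) (toGL_mem_BG.2 t'.2), mul_inv,
          smul_mul_smul_comm] }
  have hD : ∀ k t, D (k, t) = (Lm (Matrix.SpecialLinearGroup.toGL (t : SL(2, F))))⁻¹ •
        ρ (Matrix.SpecialLinearGroup.toGL k) := fun _ _ => rfl
  refine ⟨m, D, Rf, ?_, ?_, ?_, ?_, ?_⟩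
  · intro k t
    rw [hD, Matrix.trace_smul, smul_eq_mul, mul_comm, hLm _ (toGL_mem_BG.2 t.2)]
    congr 1
    rw [← Units.val_inv_eq_inv_val, ← map_inv]
    congr 2
    apply Subtype.ext
    change (Matrix.SpecialLinearGroup.toGL (t : SL(2, F)))⁻¹ =
      Matrix.SpecialLinearGroup.toGL ((t : SL(2, F))⁻¹)
    rw [map_inv]
  · intro g f g' f' hg hg' hs hs'
    obtain ⟨hf, hΛf⟩ := hmemΦ g f hs
    obtain ⟨hf', _⟩ := hmemΦ g' f' hs'
    have e1 : Lm (g * fG f g') = Lm g * Lm g' := by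
      rw [hLmul _ _ hg (fG_mem.2 hg'), hLm (fG f g') (fG_mem.2 hg'), hΛf g' hg', ← hLm g' hg']
    rw [hRf _ _ (mul_mem hf hf'), hRf _ _ hf, hRf _ _ hf', e1, smul_mul_smul_comm, mul_inv]
    congr 1
    have e2 : W ⟨f * f', mul_mem hf hf'⟩ = W ⟨f, hf⟩ * W ⟨f', hf'⟩ := by
      rw [← map_mul]
      rfl
    rw [e2, map_mul]
    calc ρ g * ρ (fG f g') * (W ⟨f, hf⟩ * W ⟨f', hf'⟩)
        = ρ g * (ρ (fG f g') * W ⟨f, hf⟩) * W ⟨f', hf'⟩ := by simp only [mul_assoc]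
      _ = ρ g * (W ⟨f, hf⟩ * ρ g') * W ⟨f', hf'⟩ := by rw [hW' f hf g']
      _ = _ := by simp only [mul_assoc]
  · intro g f k t t' hg hs ht
    obtain ⟨hf, hΛf⟩ := hmemΦ g f hs
    rw [hRf _ _ hf, hD, hD, smul_mul_smul_comm, smul_mul_smul_comm]
    have e1 : Lm (Matrix.SpecialLinearGroup.toGL (t' : SL(2, F))) =
        Lm (Matrix.SpecialLinearGroup.toGL (t : SL(2, F))) := by
      rw [ht, toGL_act]
      have h1 := toGL_mem_BG.2 t.2
      rw [hLmul _ _ (mul_mem hg (fG_mem.2 h1)) (inv_mem hg), hLmul _ _ hg (fG_mem.2 h1),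
        hLm (fG f _) (fG_mem.2 h1), hΛf _ h1, ← hLm _ h1, mul_right_comm, ← hLmul _ _ hg (inv_mem hg),
        mul_inv_cancel]
      have h2 : Lm 1 = 1 := by
        rw [hLm _ (one_mem _)]
        have : (⟨1, one_mem _⟩ : BG F) = 1 := rfl
        rw [this, map_one, Units.val_one]
      rw [h2, one_mul]
    rw [e1, mul_comm (Lm g)⁻¹]
    congr 1
    rw [mul_assoc, hW' f hf, toGL_act, map_mul, map_mul, mul_assoc, mul_assoc, ← mul_assoc (ρ g⁻¹),
      ← map_mul ρ g⁻¹ g, inv_mul_cancel, map_one, one_mul]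
  · intro t
    rw [hRf _ _ (one_mem Φ), hD]
    have : W ⟨1, one_mem Φ⟩ = 1 := map_one W
    rw [this, mul_one]
  · intro z
    rw [hRf _ _ (one_mem Φ), hsc, hLm (sc z) (up_mem z z 0)]
    have : W ⟨1, one_mem Φ⟩ = 1 := map_one W
    rw [this, mul_one, smul_smul, inv_mul_cancel₀ (Units.ne_zero _), one_smul]

end L

end Pool.Agent.Helper57.PL
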