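import Pool.Agent.Helper55.PL.Defs

/-!
# Project PL, module A7: homomorphisms of `SL₂(F)` preserving the upper triangular subgroup

Let `π, β : SL₂(F) → K` be homomorphisms with kernels contained in `{1, -1}`, `π` surjective, such
that `β s ∈ π(B)` iff `s ∈ B`. Then `β = π ∘ act g f` for an upper triangular `g` and a field
automorphism `f`.
-/

open Matrix
open scoped MatrixGroups

namespace Pool.Agent.Helper57.PL

open Pool.Agent.Helper55.PL

section basic

variable {F : Type} [Field F]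

theorem sl_ext {g h : SL(2, F)} (h00 : g 0 0 = h 0 0) (h01 : g 0 1 = h 0 1)
    (h10 : g 1 0 = h 1 0) (h11 : g 1 1 = h 1 1) : g = h := by
  apply Subtype.ext
  ext i j
  fin_cases i <;> fin_cases j <;> assumption

theorem mul00 (g h : SL(2, F)) : (g * h) 0 0 = g 0 0 * h 0 0 + g 0 1 * h 1 0 := by
  rw [Matrix.SpecialLinearGroup.coe_mul, Matrix.mul_apply, Fin.sum_univ_two]

theorem mul01 (g h : SL(2, F)) : (g * h) 0 1 = g 0 0 * h 0 1 + g 0 1 * h 1 1 := by
  rw [Matrix.SpecialLinearGroup.coe_mul, Matrix.mul_apply, Fin.sum_univ_two]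

theorem mul10 (g h : SL(2, F)) : (g * h) 1 0 = g 1 0 * h 0 0 + g 1 1 * h 1 0 := by
  rw [Matrix.SpecialLinearGroup.coe_mul, Matrix.mul_apply, Fin.sum_univ_two]

theorem mul11 (g h : SL(2, F)) : (g * h) 1 1 = g 1 0 * h 0 1 + g 1 1 * h 1 1 := by
  rw [Matrix.SpecialLinearGroup.coe_mul, Matrix.mul_apply, Fin.sum_univ_two]

theorem det_eq (g : SL(2, F)) : g 0 0 * g 1 1 - g 0 1 * g 1 0 = 1 := by
  have h := g.det_coe
  rwa [Matrix.det_fin_two] at h

theorem inv00 (g : SL(2, F)) : g⁻¹ 0 0 = g 1 1 := by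
  rw [Matrix.SpecialLinearGroup.coe_inv, Matrix.adjugate_fin_two]; rfl

theorem inv01 (g : SL(2, F)) : g⁻¹ 0 1 = - g 0 1 := by
  rw [Matrix.SpecialLinearGroup.coe_inv, Matrix.adjugate_fin_two]; rfl

theorem inv10 (g : SL(2, F)) : g⁻¹ 1 0 = - g 1 0 := by
  rw [Matrix.SpecialLinearGroup.coe_inv, Matrix.adjugate_fin_two]; rfl

theorem inv11 (g : SL(2, F)) : g⁻¹ 1 1 = g 0 0 := by
  rw [Matrix.SpecialLinearGroup.coe_inv, Matrix.adjugate_fin_two]; rfl

theorem neg00 (g : SL(2, F)) (i j : Fin 2) : (-g) i j = - g i j := by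
  rw [Matrix.SpecialLinearGroup.coe_neg]; rfl

theorem one_val (i j : Fin 2) : (1 : SL(2, F)) i j = if i = j then 1 else 0 := by
  rw [Matrix.SpecialLinearGroup.coe_one, Matrix.one_apply]

theorem xu00 (u : F) : xu u 0 0 = 1 := rfl
theorem xu01 (u : F) : xu u 0 1 = u := rfl
theorem xu10 (u : F) : xu u 1 0 = 0 := rfl
theorem xu11 (u : F) : xu u 1 1 = 1 := rfl
theorem xl00 (u : F) : xl u 0 0 = 1 := rfl
theorem xl01 (u : F) : xl u 0 1 = 0 := rfl
theorem xl10 (u : F) : xl u 1 0 = u := rfl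
theorem xl11 (u : F) : xl u 1 1 = 1 := rfl
theorem ww00 : (ww : SL(2, F)) 0 0 = 0 := rfl
theorem ww01 : (ww : SL(2, F)) 0 1 = 1 := rfl
theorem ww10 : (ww : SL(2, F)) 1 0 = -1 := rfl
theorem ww11 : (ww : SL(2, F)) 1 1 = 0 := rfl

theorem xu_zero : xu (0 : F) = 1 := by
  apply sl_ext <;> simp [xu00, xu01, xu10, xu11, one_val]

theorem xl_zero : xl (0 : F) = 1 := by
  apply sl_ext <;> simp [xl00, xl01, xl10, xl11, one_val]

theorem xu_neg (u : F) : xu (-u) = (xu u)⁻¹ := by
  apply eq_inv_of_mul_eq_one_left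
  rw [← xu_add, neg_add_cancel, xu_zero]

theorem xl_neg (u : F) : xl (-u) = (xl u)⁻¹ := by
  apply eq_inv_of_mul_eq_one_left
  rw [← xl_add, neg_add_cancel, xl_zero]

/-- the unipotent matrices generate -/
theorem mem_of_unip {H : Subgroup SL(2, F)} (hU : ∀ b, xu b ∈ H) (hL : ∀ t, xl t ∈ H)
    (g : SL(2, F)) : g ∈ H := by
  refine Matrix.SL2.transvection_induction (fun s => s ∈ H) ?_ (fun _ _ => H.mul_mem) g
  intro i j h c
  fin_cases i <;> fin_cases j
  · exact absurd rfl h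
  · have : Matrix.SpecialLinearGroup.transvection h c = xu c := by
      apply sl_ext <;> simp [Matrix.SpecialLinearGroup.transvection_coe, xu00, xu01, xu10, xu11]
    change Matrix.SpecialLinearGroup.transvection h c ∈ H
    rw [this]
    exact hU c
  · have : Matrix.SpecialLinearGroup.transvection h c = xl c := by
      apply sl_ext <;> simp [Matrix.SpecialLinearGroup.transvection_coe, xl00, xl01, xl10, xl11]
    change Matrix.SpecialLinearGroup.transvection h c ∈ H
    rw [this]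
    exact hL c
  · exact absurd rfl h

/-- two homomorphisms which agree on the unipotent matrices are equal -/
theorem hom_ext {M : Type} [Group M] {φ ψ : SL(2, F) →* M} (hU : ∀ b, φ (xu b) = ψ (xu b))
    (hL : ∀ b, φ (xl b) = ψ (xl b)) (g : SL(2, F)) : φ g = ψ g :=
  mem_of_unip (H := φ.eqLocus ψ) hU hL g

theorem anti_xu (m : SL(2, F)) (h0 : m 0 0 = 0) (h1 : m 1 1 = 0) (t : F) :
    m * xu t * m⁻¹ = xl (-(m 1 0 ^ 2 * t)) := by
  have hd := det_eq m
  rw [h0, h1] at hd
  apply sl_ext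
  · rw [mul00, mul00, mul01, inv00, inv10, xu00, xu01, xu10, xu11, xl00, h0, h1]
    linear_combination hd
  · rw [mul01, mul00, mul01, inv01, inv11, xu00, xu01, xu10, xu11, xl01, h0]
    ring
  · rw [mul10, mul10, mul11, inv00, inv10, xu00, xu01, xu10, xu11, xl10, h1]
    ring
  · rw [mul11, mul10, mul11, inv01, inv11, xu00, xu01, xu10, xu11, xl11, h0, h1]
    linear_combination hd

end basic

end Pool.Agent.Helper57.PL
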