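import Pool.Agent.Helper57.PL.Down

/-!
# Project PL: Sylow subgroups of the central quotients of `SL₂(F)`, and `Good`
-/

open Matrix
open scoped MatrixGroups

namespace Pool.Agent.Helper57.PL

open Pool.Agent.Helper55.PL Pool.Agent.Helper42.INC Pool.Agent.Helper7.MK

section sylow

variable {F : Type} [Field F] [Finite F] {p : ℕ} [Fact p.Prime] [CharP F p] {K : Type} [Group K]

/-- an element normalizing the image of the unipotent subgroup is in the image of the Borel
subgroup -/
theorem mem_BS_of_norm (hp : p ≠ 2) {π : SL(2, F) →* K}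
    (hπ : ∀ s, π s = 1 → s = 1 ∨ s = -1) {s : SL(2, F)}
    (h : π (s * xu 1 * s⁻¹) ∈ (US F).map π) : s ∈ BS F := by
  have h2 := two_ne (F := F) hp
  obtain ⟨_, ⟨v, rfl⟩, hv⟩ := h
  have hd := det_eq s
  have e00 : (s * xu 1 * s⁻¹ : SL(2, F)) 0 0 = 1 - s 0 0 * s 1 0 := by
    rw [mul00, mul00, mul01, inv00, inv10, xu00, xu01, xu10, xu11]
    linear_combination hd
  have e11 : (s * xu 1 * s⁻¹ : SL(2, F)) 1 1 = 1 + s 0 0 * s 1 0 := by
    rw [mul11, mul10, mul11, inv01, inv11, xu00, xu01, xu10, xu11]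
    linear_combination hd
  have e10 : (s * xu 1 * s⁻¹ : SL(2, F)) 1 0 = - (s 1 0 * s 1 0) := by
    rw [mul10, mul10, mul11, inv00, inv10, xu00, xu01, xu10, xu11]
    ring
  rw [mem_BS]
  rcases eq_or_neg hπ hv with h1 | h1
  · have h3 := ent h1 1 0
    rw [xu10, e10] at h3
    have h4 : s 1 0 * s 1 0 = 0 := by linear_combination h3
    exact mul_self_eq_zero.1 h4
  · exfalso
    have h3 := ent h1 0 0
    have h4 := ent h1 1 1
    rw [xu00, neg00, e00] at h3
    rw [xu11, neg00, e11] at h4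
    have h5 : (2 : F) * 2 = 0 := by linear_combination h3 + h4
    exact h2 (mul_self_eq_zero.1 h5)

theorem US_le_BS : US F ≤ BS F := by
  rintro _ ⟨u, rfl⟩
  exact xu_mem u

theorem conj_US {t : SL(2, F)} (ht : t ∈ BS F) (u : F) : ∃ v, t * xu u * t⁻¹ = xu v := by
  have hd := det_eq t
  rw [mem_BS] at ht
  rw [ht, mul_zero, sub_zero] at hd
  refine ⟨t 0 0 * u * t 0 0, ?_⟩
  apply sl_ext
  · rw [mul00, mul00, mul01, inv00, inv10, xu00, xu01, xu10, xu11, xu00, ht]
    linear_combination hd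
  · rw [mul01, mul00, mul01, inv01, inv11, xu00, xu01, xu10, xu11, xu01]
    ring
  · rw [mul10, mul10, mul11, inv00, inv10, xu00, xu01, xu10, xu11, xu10, ht]
    ring
  · rw [mul11, mul10, mul11, inv01, inv11, xu00, xu01, xu10, xu11, xu11, ht]
    linear_combination hd

/-- the normalizer of the image of the unipotent subgroup -/
theorem normalizer_US (hp : p ≠ 2) {π : SL(2, F) →* K} (hπs : Function.Surjective π)
    (hπ : ∀ s, π s = 1 → s = 1 ∨ s = -1) :
    Subgroup.normalizer (((US F).map π : Subgroup K) : Set K) = (BS F).map π := by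
  apply le_antisymm
  · intro x hx
    obtain ⟨s, rfl⟩ := hπs x
    refine Subgroup.mem_map_of_mem π (mem_BS_of_norm hp hπ ?_)
    rw [map_mul, map_mul, map_inv]
    exact (Subgroup.mem_normalizer_iff.1 hx _).1 (Subgroup.mem_map_of_mem π ⟨1, rfl⟩)
  · rintro _ ⟨t, ht, rfl⟩
    have key : ∀ t ∈ BS F, ∀ x ∈ (US F).map π, π t * x * (π t)⁻¹ ∈ (US F).map π := by
      rintro t ht _ ⟨_, ⟨u, rfl⟩, rfl⟩
      obtain ⟨v, hv⟩ := conj_US ht u
      rw [← map_inv, ← map_mul, ← map_mul, hv]
      exact Subgroup.mem_map_of_mem π ⟨v, rfl⟩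
    rw [Subgroup.mem_normalizer_iff]
    intro x
    refine ⟨key t ht x, fun h => ?_⟩
    have h1 := key t⁻¹ (inv_mem ht) _ h
    rw [map_inv, inv_inv] at h1
    have e : (π t)⁻¹ * (π t * x * (π t)⁻¹) * π t = x := by group
    rwa [e] at h1

theorem isPGroup_US : IsPGroup p (US F) := by
  rintro ⟨_, ⟨u, rfl⟩⟩
  refine ⟨1, ?_⟩
  apply Subtype.ext
  change xu u ^ p ^ 1 = 1
  rw [pow_one, xu_pow, CharP.cast_eq_zero, zero_mul, xu_zero]

/-- elements of `p`-power order of the Borel subgroup -/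
theorem mem_US_of_pow (hp : p ≠ 2) {π : SL(2, F) →* K} (hπ : ∀ s, π s = 1 → s = 1 ∨ s = -1)
    {t : SL(2, F)} (ht : t ∈ BS F) {n : ℕ} (h : π t ^ p ^ n = 1) : ∃ u, π t = π (xu u) := by
  have hodd : Odd p := (Fact.out : p.Prime).odd_of_ne_two hp
  have hd := det_eq t
  have ht' := mem_BS.1 ht
  rw [ht', mul_zero, sub_zero] at hd
  rw [← map_pow] at h
  obtain ⟨h3, h4⟩ := pow_BS ht (p ^ n)
  have hinj := iterateFrobenius_inj F p n
  rcases hπ _ h with h1 | h1
  · rw [h1, one_val, if_pos rfl] at h4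
    have h5 : t 0 0 = 1 := by
      apply hinj
      rw [iterateFrobenius_def, iterateFrobenius_def, one_pow]
      exact h4.symm
    refine ⟨t 0 1, ?_⟩
    congr 1
    rw [h5, one_mul] at hd
    exact sl_ext h5 rfl ht' hd
  · rw [h1, neg00, one_val, if_pos rfl] at h4
    have h5 : t 0 0 = -1 := by
      apply hinj
      rw [iterateFrobenius_def, iterateFrobenius_def, hodd.pow.neg_one_pow]
      exact h4.symm
    have h6 : π (-1) = 1 := by rw [← h1]; exact h
    refine ⟨-(t 0 1), ?_⟩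
    have h7 : t = (-1) * xu (-(t 0 1)) := by
      rw [h5] at hd
      rw [neg_mul, one_mul]
      apply sl_ext
      · rw [neg00, xu00, h5]
      · rw [neg00, xu01, neg_neg]
      · rw [neg00, xu10, ht', neg_zero]
      · rw [neg00, xu11]; linear_combination -hd
    conv_lhs => rw [h7]
    rw [map_mul, h6, one_mul]

/-- the image of the unipotent subgroup is a Sylow subgroup -/
theorem exists_sylow [Finite K] (hp : p ≠ 2) {π : SL(2, F) →* K} (hπs : Function.Surjective π)
    (hπ : ∀ s, π s = 1 → s = 1 ∨ s = -1) : ∃ P : Sylow p K, (P : Subgroup K) = (US F).map π := by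
  have hPU : IsPGroup p ((US F).map π) := (isPGroup_US (F := F) (p := p)).map π
  obtain ⟨P, hP⟩ := hPU.exists_le_sylow
  refine ⟨P, ?_⟩
  by_contra hne
  have hlt : ((US F).map π) < (P : Subgroup K) := lt_of_le_of_ne hP (Ne.symm hne)
  have hnil : Group.IsNilpotent P := P.isPGroup'.isNilpotent
  have hnc := Group.normalizerCondition_of_isNilpotent (G := P)
  have hltP : ((US F).map π).subgroupOf P < ⊤ := by
    rw [lt_top_iff_ne_top]
    intro h
    rw [Subgroup.subgroupOf_eq_top] at h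
    exact hne (le_antisymm h hP)
  have h1 := hnc _ hltP
  obtain ⟨x, hx, hx'⟩ := Set.exists_of_ssubset h1
  have hx2 : (x : K) ∈ Subgroup.normalizer (((US F).map π : Subgroup K) : Set K) := by
    have h3 := Subgroup.mem_normalizer_iff.1 hx
    rw [Subgroup.mem_normalizer_iff]
    intro y
    constructor
    · intro hy
      exact (h3 ⟨y, hP hy⟩).1 hy
    · intro hy
      have hyP : y ∈ (P : Subgroup K) := by
        have h4 := hP hy
        have h5 : y = (x : K)⁻¹ * ((x : K) * y * (x : K)⁻¹) * x := by group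
        rw [h5]
        exact mul_mem (mul_mem (inv_mem x.2) h4) x.2
      exact (h3 ⟨y, hyP⟩).2 hy
  rw [normalizer_US hp hπs hπ] at hx2
  obtain ⟨t, ht, htx⟩ := hx2
  obtain ⟨n, hn⟩ := P.isPGroup' x
  have h6 : π t ^ p ^ n = 1 := by
    rw [htx]
    exact congrArg Subtype.val hn
  obtain ⟨u, hu⟩ := mem_US_of_pow hp hπ ht h6
  apply hx'
  change (x : K) ∈ (US F).map π
  rw [← htx, hu]
  exact Subgroup.mem_map_of_mem π ⟨u, rfl⟩

end sylow

end Pool.Agent.Helper57.PL
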