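import Pool.Agent.Helper57.PL.Aut

/-!
# Project PL: uniqueness of `(g, f)` up to scalars, involutory matrices, factorisation
-/

open Matrix
open scoped MatrixGroups

namespace Pool.Agent.Helper57.PL

open Pool.Agent.Helper55.PL

/-- an involutory complex matrix of trace `d` is the unit matrix -/
theorem eq_one_of_trace {d : ℕ} (M : Matrix (Fin d) (Fin d) ℂ) (h : M * M = 1)
    (ht : M.trace = (d : ℂ)) : M = 1 := by
  have h1 : IsIdempotentElem (Matrix.toLin' ((2 : ℂ)⁻¹ • (1 - M))) := by
    unfold IsIdempotentElem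
    rw [Module.End.mul_eq_comp, ← Matrix.toLin'_mul]
    congr 1
    rw [smul_mul_smul_comm, sub_mul, mul_sub, mul_sub, h, one_mul, mul_one, one_mul]
    have : (1 : Matrix (Fin d) (Fin d) ℂ) - M - (M - 1) = (2 : ℂ) • (1 - M) := by
      rw [two_smul]; abel
    rw [this, smul_smul]
    norm_num
  have h2 : LinearMap.trace ℂ (Fin d → ℂ) (Matrix.toLin' ((2 : ℂ)⁻¹ • (1 - M))) = 0 := by
    rw [Matrix.trace_toLin'_eq, Matrix.trace_smul, Matrix.trace_sub, ht, Matrix.trace_one,
      Fintype.card_fin, sub_self, smul_zero]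
  have h3 := LinearMap.IsIdempotentElem.eq_zero_of_trace_eq_zero h1 h2
  have h4 : (2 : ℂ)⁻¹ • (1 - M) = 0 := by
    have := congrArg LinearMap.toMatrix' h3
    rwa [LinearMap.toMatrix'_toLin', map_zero] at this
  have h5 : (1 : Matrix (Fin d) (Fin d) ℂ) - M = 0 :=
    (smul_eq_zero.1 h4).resolve_left (by norm_num)
  exact (sub_eq_zero.1 h5).symm

/-- a homomorphism to a monoid, trivial on the kernel of a surjective homomorphism, factors -/
theorem factor {X Y M : Type} [Group X] [Group Y] [Monoid M] (f : X →* Y)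
    (hf : Function.Surjective f) (D : X →* M) (h : ∀ k, f k = 1 → D k = 1) :
    ∃ D' : Y →* M, ∀ x, D' (f x) = D x := by
  have h1 : ∀ x y, f x = f y → D x = D y := by
    intro x y hxy
    have h2 : f (x * y⁻¹) = 1 := by rw [map_mul, map_inv, hxy, mul_inv_cancel]
    have h3 : D x = D (x * y⁻¹) * D y := by rw [← map_mul, inv_mul_cancel_right]
    rw [h3, h _ h2, one_mul]
  have h4 : ∀ x, D (Function.surjInv hf (f x)) = D x := fun x =>
    h1 _ _ (Function.surjInv_eq hf (f x))
  refine ⟨{ toFun := fun y => D (Function.surjInv hf y), map_one' := ?_, map_mul' := ?_ }, h4⟩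
  · have := h4 1
    rwa [map_one, map_one] at this
  · intro a b
    obtain ⟨x, rfl⟩ := hf a
    obtain ⟨y, rfl⟩ := hf b
    rw [← map_mul, h4, h4, h4, map_mul]

section unique

variable {F : Type} [Field F] {K : Type} [Group K]

theorem act_xu (x y : Fˣ) (r : F) (f : F ≃+* F) (u : F) :
    act (up x y r) f (xu u) = xu (x * f u * ((y⁻¹ : Fˣ) : F)) := by
  apply Matrix.SpecialLinearGroup.toGL_injective
  rw [toGL_act, toGL_xu, toGL_xu, fG_up, mul_inv_eq_iff_eq_mul, up_mul, up_mul]
  congr 1
  · rw [map_one, mul_one, one_mul]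
  · rw [map_one, mul_one, one_mul]
  · simp only [map_one, Units.val_one, one_mul, mul_one]
    rw [mul_assoc (x * f u : F), ← Units.val_mul, inv_mul_cancel, Units.val_one, mul_one]
    ring

theorem xl_pow (u : F) (n : ℕ) : xl u ^ n = xl (n * u) := by
  induction n with
  | zero => rw [pow_zero, Nat.cast_zero, zero_mul, xl_zero]
  | succ n ih => rw [pow_succ, ih, ← xl_add, Nat.cast_succ, add_mul, one_mul]

/-- conjugates of unipotent elements which agree up to sign agree -/
theorem act_eq {p : ℕ} [Finite F] [Fact p.Prime] [CharP F p] (hp : p ≠ 2) {π : SL(2, F) →* K}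
    (hπ : ∀ s, π s = 1 → s = 1 ∨ s = -1) {A A' : SL(2, F) →* SL(2, F)}
    (h : ∀ s, π (A s) = π (A' s)) (s : SL(2, F)) : A s = A' s := by
  have hodd : Odd p := (Fact.out : p.Prime).odd_of_ne_two hp
  have h2 := two_ne (F := F) hp
  have key : ∀ s : SL(2, F), s ^ p = 1 → A s = A' s := by
    intro s hs
    rcases eq_or_neg hπ (h s) with h1 | h1
    · exact h1
    · exfalso
      have h3 := congrArg (fun t : SL(2, F) => t ^ p) h1
      simp only [← map_pow, hs, map_one] at h3
      have h4 : (-(A' s)) ^ p = -1 := by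
        rw [hodd.neg_pow, ← map_pow, hs, map_one]
      rw [h4] at h3
      have h5 := ent h3 0 0
      rw [neg00, one_val, if_pos rfl] at h5
      apply h2
      linear_combination h5
  refine hom_ext (fun b => key _ ?_) (fun b => key _ ?_) s
  · rw [xu_pow, CharP.cast_eq_zero, zero_mul, xu_zero]
  · rw [xl_pow, CharP.cast_eq_zero, zero_mul, xl_zero]

theorem cj_xl_comm {g : GL (Fin 2) F} (h1 : ∀ s, cj g s = s) : ∃ z, g = sc z := by
  have e : ∀ s : SL(2, F), g.val * s.val = s.val * g.val := by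
    intro s
    have h2 : g * Matrix.SpecialLinearGroup.toGL s = Matrix.SpecialLinearGroup.toGL s * g := by
      rw [← mul_inv_eq_iff_eq_mul, ← toGL_cj, h1]
    exact congrArg Units.val h2
  have e1 := e (xu 1)
  have e2 := e (xl 1)
  rw [xu_val] at e1
  rw [xl_val] at e2
  have h10 : g.val 1 0 = 0 := by
    have := congrFun (congrFun e1 0) 0
    simp [Matrix.mul_apply, Fin.sum_univ_two] at this
    exact this
  have h01 : g.val 0 1 = 0 := by
    have := congrFun (congrFun e2 0) 0
    simp [Matrix.mul_apply, Fin.sum_univ_two] at this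
    exact this
  have h11 : g.val 0 0 = g.val 1 1 := by
    have := congrFun (congrFun e1 0) 1
    simp [Matrix.mul_apply, Fin.sum_univ_two, h10, h01] at this
    exact this
  obtain ⟨x, y, u, rfl⟩ := exists_up (mem_BG.2 h10)
  rw [up_val] at h01 h11
  have h3 : u = 0 := by simpa using h01
  have h4 : x = y := Units.ext (by simpa using h11)
  exact ⟨x, by rw [h3, ← h4]; rfl⟩

/-- uniqueness of `(g, f)` up to scalars -/
theorem act_unique {g g' : GL (Fin 2) F} {f f' : F ≃+* F} (hg : g ∈ BG F) (hg' : g' ∈ BG F)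
    (h : ∀ s, act g f s = act g' f' s) : f = f' ∧ ∃ z, g = sc z * g' := by
  obtain ⟨x, y, u, rfl⟩ := exists_up hg
  obtain ⟨x', y', u', rfl⟩ := exists_up hg'
  have h1 : ∀ u, (x : F) * f u * ((y⁻¹ : Fˣ) : F) = x' * f' u * ((y'⁻¹ : Fˣ) : F) := by
    intro u
    have h2 := h (xu u)
    rw [act_xu, act_xu] at h2
    exact ent h2 0 1
  have hf : f = f' := by
    ext u
    have h2 := h1 1
    rw [map_one, map_one, mul_one, mul_one] at h2
    have h3 := h1 u
    have h4 : ((x : F) * ((y⁻¹ : Fˣ) : F)) * f u = ((x : F) * ((y⁻¹ : Fˣ) : F)) * f' u := by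
      rw [mul_right_comm, h3, mul_right_comm, h2]
    have h5 : (x : F) * ((y⁻¹ : Fˣ) : F) ≠ 0 := mul_ne_zero x.ne_zero (y⁻¹).ne_zero
    exact mul_left_cancel₀ h5 h4
  subst hf
  refine ⟨rfl, ?_⟩
  have h2 : ∀ s, cj ((up x' y' u')⁻¹ * up x y u) s = s := by
    intro s
    have h3 := h ((fS f).symm s)
    rw [act_apply, act_apply, MulEquiv.apply_symm_apply] at h3
    rw [cj_mul, h3, ← cj_mul, inv_mul_cancel]
    apply Matrix.SpecialLinearGroup.toGL_injective
    rw [toGL_cj]
    group
  obtain ⟨z, hz⟩ := cj_xl_comm h2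
  refine ⟨z, ?_⟩
  rw [sc_comm, ← hz, mul_inv_cancel_left]

end unique

end Pool.Agent.Helper57.PL
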